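import Mathlib
import Pool.Agent.Lib.MP_bf61d2_nt.Trim.Artin.H.DefsH
import Pool.Agent.Lib.MP_bf61d2_nt.Trim.Artin.R.DefsR

set_option autoImplicit false

/-!
HECKE (MP_bf61d2_nt): CLOH, closure properties of unitary Hecke characters and of their infinity
types.
-/

namespace NumberField
end NumberField

namespace Pool.Agent.Lib.MP_bf61d2_nt.Artin.Ray

open NumberField NumberField.mixedEmbedding IsDedekindDomain

open scoped Classical nonZeroDivisors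

universe u

variable {K : Type u} [Field K] [NumberField K]

/-! ### the characters of the mixed space -/

theorem cplx_ne36 {x : mixedSpace K} (hx : mixedEmbedding.norm x ≠ 0)
    (w : {w : InfinitePlace K // w.IsComplex}) : x.2 w ≠ 0 := by
  have h := (mixedEmbedding.norm_ne_zero_iff.mp hx) w.1
  rw [normAtPlace_apply_of_isComplex w.2] at h
  exact fun h0 => h (by rw [h0, norm_zero])

theorem unit_norm36 {z : ℂ} (hz : z ≠ 0) : ‖z / (‖z‖ : ℂ)‖ = 1 := by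
  rw [norm_div, Complex.norm_real, norm_norm, div_self (norm_ne_zero_iff.mpr hz)]

theorem norm_lamX (a : TA K) (b : TB K) {x : mixedSpace K} (hx : mixedEmbedding.norm x ≠ 0) :
    ‖lamX a b x‖ = 1 := by
  unfold lamX
  rw [norm_mul, Complex.norm_exp_ofReal_mul_I, mul_one, norm_prod]
  apply Finset.prod_eq_one
  intro w _
  rw [norm_zpow, unit_norm36 (cplx_ne36 hx w), one_zpow]

theorem norm_emb_ne36 {α : K} (hα : α ≠ 0) : mixedEmbedding.norm (mixedEmbedding K α) ≠ 0 := by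
  rw [mixedEmbedding.norm_ne_zero_iff]
  intro w
  rw [normAtPlace_apply]
  exact (map_ne_zero w).mpr hα

theorem lamX_add (a a' : TA K) (b b' : TB K) {x : mixedSpace K} (hx : mixedEmbedding.norm x ≠ 0) :
    lamX (a + a') (b + b') x = lamX a b x * lamX a' b' x := by
  unfold lamX
  have h1 : ∏ w : {w : InfinitePlace K // w.IsComplex}, (x.2 w / (‖x.2 w‖ : ℂ)) ^ ((a + a') w) =
      (∏ w : {w : InfinitePlace K // w.IsComplex}, (x.2 w / (‖x.2 w‖ : ℂ)) ^ (a w)) *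
      ∏ w : {w : InfinitePlace K // w.IsComplex}, (x.2 w / (‖x.2 w‖ : ℂ)) ^ (a' w) := by
    rw [← Finset.prod_mul_distrib]
    refine Finset.prod_congr rfl (fun w _ => ?_)
    have h0 : x.2 w / (‖x.2 w‖ : ℂ) ≠ 0 := by
      rw [← norm_ne_zero_iff, unit_norm36 (cplx_ne36 hx w)]
      exact one_ne_zero
    rw [Pi.add_apply, zpow_add₀ h0]
  have h2 : (∑ w : InfinitePlace K, (b + b') w * Real.log (normAtPlace w x)) =
      (∑ w : InfinitePlace K, b w * Real.log (normAtPlace w x)) +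
      ∑ w : InfinitePlace K, b' w * Real.log (normAtPlace w x) := by
    rw [← Finset.sum_add_distrib]
    refine Finset.sum_congr rfl (fun w _ => ?_)
    rw [Pi.add_apply, add_mul]
  rw [h1, h2, Complex.ofReal_add, add_mul, Complex.exp_add]
  ring

theorem lamX_zero (x : mixedSpace K) : lamX (0 : TA K) (0 : TB K) x = 1 := by
  unfold lamX
  simp

theorem lamX_neg (a : TA K) (b : TB K) {x : mixedSpace K} (hx : mixedEmbedding.norm x ≠ 0) :
    lamX (-a) (-b) x = (lamX a b x)⁻¹ := by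
  have h := lamX_add (-a) a (-b) b hx
  rw [neg_add_cancel, neg_add_cancel, lamX_zero] at h
  exact eq_inv_of_mul_eq_one_left h.symm

theorem lamX_conj (a : TA K) (b : TB K) {x : mixedSpace K} (hx : mixedEmbedding.norm x ≠ 0) :
    (starRingEnd ℂ) (lamX a b x) = lamX (-a) (-b) x := by
  rw [lamX_neg a b hx, Complex.inv_def, Complex.normSq_eq_norm_sq, norm_lamX a b hx]
  simp

/-! ### sizes -/

theorem one_le_sz (a : TA K) (b : TB K) : 1 ≤ sz a b := by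
  unfold sz
  have h1 : 0 ≤ ∑ w : {w : InfinitePlace K // w.IsComplex}, |(a w : ℝ)| :=
    Finset.sum_nonneg (fun _ _ => abs_nonneg _)
  have h2 : 0 ≤ ∑ w : InfinitePlace K, |b w| := Finset.sum_nonneg (fun _ _ => abs_nonneg _)
  linarith

theorem sz_neg (a : TA K) (b : TB K) : sz (-a) (-b) = sz a b := by
  unfold sz
  simp

theorem sz_add_le (a a' : TA K) (b b' : TB K) : sz (a + a') (b + b') ≤ sz a b + sz a' b' - 1 := by
  unfold sz
  have h1 : ∑ w : {w : InfinitePlace K // w.IsComplex}, |((a + a') w : ℝ)| ≤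
      ∑ w : {w : InfinitePlace K // w.IsComplex}, |(a w : ℝ)| +
      ∑ w : {w : InfinitePlace K // w.IsComplex}, |(a' w : ℝ)| := by
    rw [← Finset.sum_add_distrib]
    refine Finset.sum_le_sum (fun w _ => ?_)
    rw [Pi.add_apply, Int.cast_add]
    exact abs_add_le _ _
  have h2 : ∑ w : InfinitePlace K, |(b + b') w| ≤
      ∑ w : InfinitePlace K, |b w| + ∑ w : InfinitePlace K, |b' w| := by
    rw [← Finset.sum_add_distrib]
    refine Finset.sum_le_sum (fun w _ => ?_)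
    rw [Pi.add_apply]
    exact abs_add_le _ _
  linarith

theorem sz_add_le_mul (a a' : TA K) (b b' : TB K) :
    sz (a + a') (b + b') ≤ sz a b * sz a' b' := by
  have h1 := sz_add_le a a' b b'
  have h2 := one_le_sz a b
  have h3 := one_le_sz a' b'
  nlinarith

/-! ### Hecke characters -/

theorem emb_ne36 {γ : 𝓞 K} (hγ : γ ≠ 0) : mixedEmbedding.norm (mixedEmbedding K (γ : K)) ≠ 0 :=
  norm_emb_ne36 (fun h => hγ (by exact_mod_cast h))

theorem isHe_mul {𝔪 𝔪' : Ideal (𝓞 K)} {a a' : TA K} {b b' : TB K} {ψ ψ' : Ideal (𝓞 K) →*₀ ℂ}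
    (h : IsHe 𝔪 a b ψ) (h' : IsHe 𝔪' a' b' ψ') :
    IsHe (𝔪 * 𝔪') (a + a') (b + b') (ψ * ψ') := by
  refine ⟨?_, ?_, ?_⟩
  · simp only [Pi.add_apply, Finset.sum_add_distrib]
    rw [h.1, h'.1, add_zero]
  · intro γ hγ h1 hpos
    have m1 : γ - 1 ∈ 𝔪 := (Ideal.mul_le_left : 𝔪 * 𝔪' ≤ 𝔪) h1
    have m2 : γ - 1 ∈ 𝔪' := (Ideal.mul_le_right : 𝔪 * 𝔪' ≤ 𝔪') h1
    have e : (ψ * ψ') (Ideal.span {γ}) = ψ (Ideal.span {γ}) * ψ' (Ideal.span {γ}) := rfl
    rw [e, lamX_add a a' b b' (emb_ne36 hγ), h.2.1 γ hγ m1 hpos, h'.2.1 γ hγ m2 hpos]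
  · intro v
    have e : (ψ * ψ') v.asIdeal = ψ v.asIdeal * ψ' v.asIdeal := rfl
    rw [e, mul_eq_zero, h.2.2 v, h'.2.2 v]
    exact v.isPrime.mul_le.symm

theorem isHe_cj {𝔪 : Ideal (𝓞 K)} {a : TA K} {b : TB K} {ψ : Ideal (𝓞 K) →*₀ ℂ}
    (h : IsHe 𝔪 a b ψ) : IsHe 𝔪 (-a) (-b) (cj ψ) := by
  have e : ∀ I, cj ψ I = (starRingEnd ℂ) (ψ I) := fun _ => rfl
  refine ⟨?_, ?_, ?_⟩
  · simp only [Pi.neg_apply, Finset.sum_neg_distrib]
    rw [h.1, neg_zero]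
  · intro γ hγ h1 hpos
    rw [e, h.2.1 γ hγ h1 hpos, lamX_conj a b (emb_ne36 hγ)]
  · intro v
    rw [e, map_eq_zero, h.2.2 v]

theorem isHe_of_isRay {𝔪 : Ideal (𝓞 K)} {ψ : Ideal (𝓞 K) →*₀ ℂ} (h : IsRay 𝔪 ψ) :
    IsHe 𝔪 0 0 ψ := by
  refine ⟨by simp, ?_, h.2⟩
  intro γ hγ h1 hpos
  rw [lamX_zero, h.1 γ hγ h1 hpos]

theorem isHk_mul {𝔪 𝔪' : Ideal (𝓞 K)} {Z Z' : ℕ} {ψ ψ' : Ideal (𝓞 K) →*₀ ℂ}
    (h : IsHk 𝔪 Z ψ) (h' : IsHk 𝔪' Z' ψ') : IsHk (𝔪 * 𝔪') (Z * Z') (ψ * ψ') := by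
  obtain ⟨hm, a, b, hh, hZ⟩ := h
  obtain ⟨hm', a', b', hh', hZ'⟩ := h'
  refine ⟨mul_ne_zero hm hm', a + a', b + b', isHe_mul hh hh', ?_⟩
  rw [map_mul]
  push_cast
  have h1 := sz_add_le_mul a a' b b'
  have h2 := one_le_sz a b
  have h3 := one_le_sz a' b'
  calc (Ideal.absNorm 𝔪 : ℝ) * (Ideal.absNorm 𝔪' : ℝ) * sz (a + a') (b + b')
      ≤ (Ideal.absNorm 𝔪 : ℝ) * (Ideal.absNorm 𝔪' : ℝ) * (sz a b * sz a' b') := by gcongr
    _ = ((Ideal.absNorm 𝔪 : ℝ) * sz a b) * ((Ideal.absNorm 𝔪' : ℝ) * sz a' b') := by ring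
    _ ≤ Z * Z' := by gcongr

theorem isHk_cj {𝔪 : Ideal (𝓞 K)} {Z : ℕ} {ψ : Ideal (𝓞 K) →*₀ ℂ} (h : IsHk 𝔪 Z ψ) :
    IsHk 𝔪 Z (cj ψ) := by
  obtain ⟨hm, a, b, hh, hZ⟩ := h
  exact ⟨hm, -a, -b, isHe_cj hh, by rwa [sz_neg]⟩

end Pool.Agent.Lib.MP_bf61d2_nt.Artin.Ray
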