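import Mathlib
import Pool.Agent.Lib.MP_bf61d2_nt.Trim.Artin.H.CLOH36
import Pool.Agent.Lib.MP_bf61d2_nt.Trim.Artin.H.DefsH
import Pool.Agent.Lib.MP_bf61d2_nt.Trim.Artin.H.StmtsH

set_option autoImplicit false

/-!
HECKE (MP_bf61d2_nt): BASH, the values of a unitary Hecke character.
-/

namespace NumberField
end NumberField

namespace Pool.Agent.Lib.MP_bf61d2_nt.Artin.Ray

open NumberField NumberField.mixedEmbedding IsDedekindDomain

open scoped Classical nonZeroDivisors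

universe u

variable {K : Type u} [Field K] [NumberField K]

theorem normH_one36 {𝔪 : Ideal (𝓞 K)} (hm : 𝔪 ≠ ⊥) {a : TA K} {b : TB K}
    {ψ : Ideal (𝓞 K) →*₀ ℂ} (hψ : IsHe 𝔪 a b ψ)
    (v : HeightOneSpectrum (𝓞 K)) (hv : ¬ 𝔪 ≤ v.asIdeal) : ‖ψ v.asIdeal‖ = 1 := by
  have hI0 : v.asIdeal ≠ ⊥ := v.ne_bot
  obtain ⟨n, hn, hp⟩ : ∃ n : ℕ, 0 < n ∧ (v.asIdeal ^ n).IsPrincipal := by
    refine ⟨Fintype.card (ClassGroup (𝓞 K)), Fintype.card_pos, ?_⟩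
    have h1 : (ClassGroup.mk0 (⟨v.asIdeal, mem_nonZeroDivisors_iff_ne_zero.mpr hI0⟩ :
        (Ideal (𝓞 K))⁰)) ^ Fintype.card (ClassGroup (𝓞 K)) = 1 := pow_card_eq_one
    rw [← map_pow] at h1
    have h2 := (ClassGroup.mk0_eq_one_iff
      (mem_nonZeroDivisors_iff_ne_zero.mpr (pow_ne_zero _ hI0))).mp h1
    exact h2
  obtain ⟨α, hα⟩ := hp.principal
  have hα' : v.asIdeal ^ n = Ideal.span {α} := hα
  have hα0 : α ≠ 0 := by
    rintro rfl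
    rw [Ideal.span_singleton_eq_bot.mpr rfl] at hα'
    exact pow_ne_zero n hI0 hα'
  have hco : v.asIdeal ⊔ 𝔪 = ⊤ := by
    have hmax := v.isMaximal
    by_contra h
    have : v.asIdeal = v.asIdeal ⊔ 𝔪 := hmax.eq_of_le h le_sup_left
    exact hv (this ▸ le_sup_right)
  have hco2 : v.asIdeal ^ n ⊔ 𝔪 = ⊤ := Ideal.pow_sup_eq_top hco
  have hu : IsUnit (Ideal.Quotient.mk 𝔪 α) := by
    rw [hα'] at hco2
    obtain ⟨a, ha, b, hb, hab⟩ := Submodule.mem_sup.mp (hco2 ▸ Submodule.mem_top :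
      (1 : 𝓞 K) ∈ Ideal.span {α} ⊔ 𝔪)
    obtain ⟨c, rfl⟩ := Ideal.mem_span_singleton'.mp ha
    refine IsUnit.of_mul_eq_one (Ideal.Quotient.mk 𝔪 c) ?_
    rw [← map_mul, ← map_one (Ideal.Quotient.mk 𝔪), Ideal.Quotient.mk_eq_mk_iff_sub_mem]
    have : α * c - 1 = -b := by rw [← hab]; ring
    rw [this]
    exact 𝔪.neg_mem hb
  obtain ⟨N, hN, hN1⟩ : ∃ N : ℕ, 0 < N ∧ α ^ N - 1 ∈ 𝔪 := by
    have hfin : Finite (𝓞 K ⧸ 𝔪) := Ideal.finiteQuotientOfFreeOfNeBot 𝔪 hm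
    obtain ⟨w, hw⟩ := hu
    refine ⟨orderOf w, orderOf_pos w, ?_⟩
    rw [← Ideal.Quotient.mk_eq_mk_iff_sub_mem, map_pow, map_one, ← hw, ← Units.val_pow_eq_pow_val,
      pow_orderOf_eq_one, Units.val_one]
  have h1 : ‖ψ (Ideal.span {α ^ (2 * N)})‖ = 1 := by
    have hg0 : α ^ (2 * N) ≠ 0 := pow_ne_zero _ hα0
    rw [hψ.2.1 _ hg0, norm_lamX a b (emb_ne36 hg0)]
    · have : α ^ (2 * N) - 1 = (α ^ N + 1) * (α ^ N - 1) := by ring
      rw [this]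
      exact 𝔪.mul_mem_left _ hN1
    · intro φ
      have h2 : φ (α : K) ≠ 0 := by
        rw [map_ne_zero]
        exact fun h => hα0 (by exact_mod_cast h)
      have h3 : φ ((α ^ (2 * N) : 𝓞 K) : K) = (φ (α : K) ^ N) ^ 2 := by
        push_cast
        rw [map_pow]
        ring
      rw [h3]
      positivity
  rw [← Ideal.span_singleton_pow, ← hα', ← pow_mul, map_pow, norm_pow] at h1
  exact (pow_eq_one_iff_of_nonneg (norm_nonneg _) (by positivity)).mp h1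

theorem normH_le36 {𝔪 : Ideal (𝓞 K)} (hm : 𝔪 ≠ ⊥) {a : TA K} {b : TB K}
    {ψ : Ideal (𝓞 K) →*₀ ℂ} (hψ : IsHe 𝔪 a b ψ) (I : Ideal (𝓞 K)) : ‖ψ I‖ ≤ 1 := by
  induction I using UniqueFactorizationMonoid.induction_on_prime with
  | h₁ => rw [map_zero, norm_zero]; exact zero_le_one
  | h₂ x hx =>
    have : x = 1 := by
      rw [Ideal.isUnit_iff] at hx
      rw [hx, Ideal.one_eq_top]
    rw [this, map_one, norm_one]
  | h₃ a p ha hp ih =>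
    rw [map_mul, norm_mul]
    have hp2 : p.IsPrime := Ideal.isPrime_of_prime hp
    have h1 : ‖ψ p‖ ≤ 1 := by
      by_cases hv : 𝔪 ≤ p
      · have := (hψ.2.2 ⟨p, hp2, hp.ne_zero⟩).mpr hv
        change ψ p = 0 at this
        rw [this, norm_zero]
        exact zero_le_one
      · exact (normH_one36 hm hψ ⟨p, hp2, hp.ne_zero⟩ hv).le
    exact mul_le_one₀ h1 (norm_nonneg _) ih

theorem stBASH_36 (K : Type u) [Field K] [NumberField K] : StBASH K :=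
  fun _ hm _ _ _ hψ => ⟨normH_le36 hm hψ, normH_one36 hm hψ⟩

theorem isHk_norm_le {𝔪 : Ideal (𝓞 K)} {Z : ℕ} {ψ : Ideal (𝓞 K) →*₀ ℂ} (h : IsHk 𝔪 Z ψ)
    (I : Ideal (𝓞 K)) : ‖ψ I‖ ≤ 1 := by
  obtain ⟨hm, a, b, hh, _⟩ := h
  exact normH_le36 hm hh I

end Pool.Agent.Lib.MP_bf61d2_nt.Artin.Ray
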