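import Mathlib
import Pool.Agent.Lib.MP_bf61d2_nt.Trim.Artin.H.DefsH

set_option autoImplicit false

/-!
HECKE (MP_bf61d2_nt): the character of an infinity type, in terms of the places of `K`.
-/

namespace NumberField
end NumberField

namespace Pool.Agent.Lib.MP_bf61d2_nt.Artin.Ray

open NumberField NumberField.mixedEmbedding IsDedekindDomain

open scoped Classical

variable {K : Type*} [Field K] [NumberField K]

/-- The character of infinity type `(a, b)` at an element of `K`. -/
lemma lamX_emb (a : TA K) (b : TB K) {x : K} (hx : x ≠ 0) :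
    lamX a b (mixedEmbedding K x) =
      (∏ w : {w : InfinitePlace K // w.IsComplex}, (w.1.embedding x / (w.1 x : ℂ)) ^ (a w)) *
        ∏ w : InfinitePlace K, (w x : ℂ) ^ ((b w : ℂ) * Complex.I) := by
  rw [lamX]
  congr 1
  · refine Finset.prod_congr rfl fun w _ => ?_
    have h1 : (mixedEmbedding K x).2 w = w.1.embedding x := mixedEmbedding_apply_isComplex K x w
    rw [h1, InfinitePlace.norm_embedding_eq]
  · have h2 : ∀ w : InfinitePlace K, (w x : ℂ) ^ ((b w : ℂ) * Complex.I) =
        Complex.exp ((b w * Real.log (w x) : ℝ) * Complex.I) := by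
      intro w
      have h3 : (0 : ℝ) < w x := InfinitePlace.pos_iff.mpr hx
      have h4 : ((w x : ℝ) : ℂ) ≠ 0 := Complex.ofReal_ne_zero.mpr h3.ne'
      rw [Complex.cpow_def_of_ne_zero h4, ← Complex.ofReal_log h3.le]
      congr 1
      push_cast
      ring
    simp only [h2]
    rw [← Complex.exp_sum, ← Finset.sum_mul]
    congr 2
    push_cast
    refine Finset.sum_congr rfl fun w _ => ?_
    rw [normAtPlace_apply]

end Pool.Agent.Lib.MP_bf61d2_nt.Artin.Ray
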