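import Mathlib
import Pool.Agent.Lib.MP_bf61d2_nt.Trim.Artin.H.DefsH
import Pool.Agent.Lib.MP_bf61d2_nt.Trim.Artin.H.StmtsH
import Pool.Agent.Lib.MP_bf61d2_nt.Trim.Artin.R.DefsR
import Pool.Agent.Lib.MP_bf61d2_nt.Trim.Artin.R.StmtsR
import Pool.Agent.Lib.MP_bf61d2_nt.Trim.Artin.ZA69
import Pool.Agent.Lib.MP_bf61d2_nt.Trim.Zeta.ClassSum
import Pool.Agent.Lib.MP_bf61d2_nt.Trim.Zeta.Lattice
import Pool.Agent.Lib.MP_bf61d2_nt.Trim.Zeta.Lip
import Pool.Agent.Lib.MP_bf61d2_nt.Trim.Zeta.Unfold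

set_option autoImplicit false

/-!
HECKE, module GROWH: the continuation and the growth of the Dirichlet series of a Hecke character.
-/

namespace NumberField
end NumberField

namespace Pool.Agent.Lib.MP_bf61d2_nt.Zeta
end Pool.Agent.Lib.MP_bf61d2_nt.Zeta

namespace Pool.Agent.Lib.MP_bf61d2_nt.Artin.Ray

open NumberField NumberField.mixedEmbedding NumberField.Units NumberField.InfinitePlace

open IsDedekindDomain Module

open Pool.Agent.Lib.MP_bf61d2_nt.Zeta

open scoped Classical nonZeroDivisors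

universe u

theorem stGROWH_of {K : Type u} [Field K] [NumberField K] (hBAS : StBASH K) (hPER : StPERH K)
    (hUNF : StUNF K) (hLAT : StLATH K) : StGROWH K := by
  obtain ⟨hsg0, hsg1, -⟩ := ZB69.sg_bounds K
  choose J hJ using fun C : ClassGroup (𝓞 K) => ClassGroup.mk0_surjective C⁻¹
  set bs := fun C => fractionalIdealLatticeBasis K (FractionalIdeal.mk0 K (J C)) with hbs
  have hb : ∀ C, IsBasisOf (J C) (bs C) := fun C => isBasisOf_fractionalIdealLatticeBasis (J C)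
  have hN : ∀ C, ∀ a : Free.ChooseBasisIndex ℤ
      (FractionalIdeal.mk0 K (J C) : FractionalIdeal (𝓞 K)⁰ K) → ℤ, a ≠ 0 →
      1 ≤ mixedEmbedding.norm (pt (bs C) a) := fun C a ha => one_le_norm_pt (hb C) ha
  have hcard : ∀ C, Fintype.card (Free.ChooseBasisIndex ℤ
      (FractionalIdeal.mk0 K (J C) : FractionalIdeal (𝓞 K)⁰ K)) = finrank ℚ K := fun C => by
    rw [← finrank_eq_card_chooseBasisIndex, fractionalIdeal_rank, RingOfIntegers.rank]
  choose A hA0 hA using fun C => hLAT _ (bs C) (hcard C) (hN C)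
  have hen : ∀ n : ℕ, Differentiable ℂ fun s => en s n := by
    intro n
    unfold en
    fun_prop
  have hw : (torsionOrder K : ℂ) ≠ 0 := Nat.cast_ne_zero.mpr (torsionOrder_ne_zero K)
  have hw1 : (1 : ℝ) ≤ torsionOrder K := by
    exact_mod_cast Nat.one_le_iff_ne_zero.mpr (torsionOrder_ne_zero K)
  set S : ℝ := ∑ C, Real.exp (2 * Real.log (Ideal.absNorm (J C : Ideal (𝓞 K)))) * A C with hS
  have hS0 : 0 ≤ S := Finset.sum_nonneg fun C _ => mul_nonneg (Real.exp_pos _).le (hA0 C).le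
  refine ⟨(1 - ZB69.sg K) / 2, 1 + S, finrank ℚ K + 2, by linarith, by linarith, by linarith, ?_⟩
  intro 𝔪 h𝔪 α' β' ψ hψ
  obtain ⟨hψ1, -⟩ := hBAS 𝔪 h𝔪 α' β' ψ hψ
  have hβ0 : ∑ w, β' w = 0 := hψ.1
  have hsz : 1 ≤ sz α' β' := by
    rw [sz]
    have h1 : 0 ≤ ∑ w : {w : InfinitePlace K // w.IsComplex}, |(α' w : ℝ)| :=
      Finset.sum_nonneg fun _ _ => abs_nonneg _
    have h2 : 0 ≤ ∑ w : InfinitePlace K, |β' w| := Finset.sum_nonneg fun _ _ => abs_nonneg _
    linarith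
  set m : ℕ := Ideal.absNorm 𝔪 with hm
  have hm0 : m ≠ 0 := by
    rw [hm, Ne, Ideal.absNorm_eq_zero_iff]
    exact h𝔪
  have : NeZero m := ⟨hm0⟩
  have hm1 : (1 : ℝ) ≤ m := by exact_mod_cast Nat.one_le_iff_ne_zero.mpr hm0
  choose P hP1 hPT hPI using fun C => hPER 𝔪 h𝔪 α' β' ψ hψ (J C) _ (bs C) (hb C)
  have hPm : ∀ C σ (a y : Free.ChooseBasisIndex ℤ
      (FractionalIdeal.mk0 K (J C) : FractionalIdeal (𝓞 K)⁰ K) → ℤ),
      P C σ (a + fun i => y i * m) = P C σ a := by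
    intro C σ a y
    obtain ⟨β, hβ, hβ'⟩ := (hb C (pt (bs C) y)).mp ⟨y, rfl⟩
    refine hPT C σ a _ ⟨(m : 𝓞 K) * β, Ideal.mul_mem_mul (Ideal.absNorm_mem 𝔪) hβ, ?_⟩
    rw [pt_mul, ← hβ']
    push_cast
    rw [map_mul, map_natCast]
    rfl
  choose H hHd hHs hHb using fun C => hA C α' β' hβ0 m (P C) (hP1 C) (hPm C)
  refine ⟨fun s => ∑ C, (torsionOrder K * en s (Ideal.absNorm (J C : Ideal (𝓞 K))))⁻¹ * H C s,
    ?_, ?_, ?_⟩
  · refine DifferentiableOn.fun_sum fun C _ => ?_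
    refine DifferentiableOn.mul ?_ ((hHd C).mono fun s hs => ?_)
    · refine Differentiable.differentiableOn ?_
      exact (Differentiable.fun_mul (differentiable_const _) (hen _)).fun_inv
        fun s => mul_ne_zero hw (en_ne_zero _ _)
    · have h1 : 1 - (1 - ZB69.sg K) / 2 < s.re := hs
      show ZB69.sg K < s.re
      linarith
  · intro s hs
    have u1 := hUNF (ψ : Ideal (𝓞 K) → ℂ) hψ1 J hJ _ bs hb
      (fun C a => P C (sgn (pt (bs C) a)) a * lamX α' β' (pt (bs C) a))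
      (fun C a α I h0 h1 h2 => hPI C a α I h0 h1 h2) s hs
    rw [u1, Finset.mul_sum]
    refine Finset.sum_congr rfl fun C _ => ?_
    rw [hHs C s hs]
    ring
  · intro s hs hs2
    have hy1 : 1 ≤ 1 + |s.im| := by linarith [abs_nonneg s.im]
    have hbig : (m : ℝ) ^ finrank ℚ K * (sz α' β' * (1 + |s.im|)) ^ (finrank ℚ K + 2) ≤
        (m * (sz α' β' * (1 + |s.im|))) ^ (finrank ℚ K + 2) := by
      rw [mul_pow (m : ℝ)]
      exact mul_le_mul_of_nonneg_right (pow_le_pow_right₀ hm1 (by omega)) (by positivity)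
    have h1 : ‖∑ C, (torsionOrder K * en s (Ideal.absNorm (J C : Ideal (𝓞 K))))⁻¹ * H C s‖ ≤
        ∑ C, Real.exp (2 * Real.log (Ideal.absNorm (J C : Ideal (𝓞 K)))) * A C *
          (m * (sz α' β' * (1 + |s.im|))) ^ (finrank ℚ K + 2) := by
      refine (norm_sum_le _ _).trans (Finset.sum_le_sum fun C _ => ?_)
      have h8 : 0 ≤ Real.log (Ideal.absNorm (J C : Ideal (𝓞 K))) := Real.log_natCast_nonneg _
      have h9 : (torsionOrder K : ℝ)⁻¹ ≤ 1 := inv_le_one_of_one_le₀ hw1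
      have h2 : ‖(torsionOrder K * en s (Ideal.absNorm (J C : Ideal (𝓞 K))))⁻¹‖ ≤
          Real.exp (2 * Real.log (Ideal.absNorm (J C : Ideal (𝓞 K)))) := by
        rw [norm_inv, norm_mul, Complex.norm_natCast, en, Complex.norm_exp, mul_inv, ← Real.exp_neg]
        have h10 : -(-(s * (Real.log (Ideal.absNorm (J C : Ideal (𝓞 K))) : ℂ))).re =
            s.re * Real.log (Ideal.absNorm (J C : Ideal (𝓞 K))) := by
          rw [Complex.neg_re, neg_neg, Complex.re_mul_ofReal]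
        rw [h10]
        calc (torsionOrder K : ℝ)⁻¹ *
              Real.exp (s.re * Real.log (Ideal.absNorm (J C : Ideal (𝓞 K))))
            ≤ 1 * Real.exp (2 * Real.log (Ideal.absNorm (J C : Ideal (𝓞 K)))) :=
              mul_le_mul h9 (Real.exp_le_exp.mpr (mul_le_mul_of_nonneg_right hs2 h8))
                (Real.exp_pos _).le zero_le_one
          _ = _ := one_mul _
      have h3 : ‖H C s‖ ≤ A C * (m * (sz α' β' * (1 + |s.im|))) ^ (finrank ℚ K + 2) := by
        refine (hHb C s (by linarith) hs2).trans ?_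
        rw [mul_assoc]
        exact mul_le_mul_of_nonneg_left hbig (hA0 C).le
      rw [norm_mul, mul_assoc]
      exact mul_le_mul h2 h3 (norm_nonneg _) (Real.exp_pos _).le
    refine h1.trans ?_
    rw [← Finset.sum_mul, ← hS]
    exact mul_le_mul_of_nonneg_right (by linarith) (by positivity)

end Pool.Agent.Lib.MP_bf61d2_nt.Artin.Ray
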