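import Mathlib
import Pool.Agent.Lib.MP_bf61d2_nt.Trim.Artin.H.CONV84
import Pool.Agent.Lib.MP_bf61d2_nt.Trim.Artin.H.DefsH
import Pool.Agent.Lib.MP_bf61d2_nt.Trim.Artin.H.StmtsH
import Pool.Agent.Lib.MP_bf61d2_nt.Trim.Artin.R.INV39

set_option autoImplicit false

/-!
HECKE (MP_bf61d2_nt), module INVH: the value of a Hecke character divided by the character of its
infinity type depends only on the generator modulo the lattice and on its signs.
-/

namespace NumberField
end NumberField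

namespace Pool.Agent.Lib.MP_bf61d2_nt.Zeta
end Pool.Agent.Lib.MP_bf61d2_nt.Zeta

namespace Pool.Agent.Lib.MP_bf61d2_nt.Artin.Ray

open NumberField NumberField.mixedEmbedding NumberField.Units NumberField.InfinitePlace

open IsDedekindDomain Module

open Pool.Agent.Lib.MP_bf61d2_nt.Zeta

open scoped Classical nonZeroDivisors

universe u

namespace InvH39

variable {K : Type u} [Field K] [NumberField K]

/-- the character of an infinity type is multiplicative -/
lemma lam_mul (a : TA K) (b : TB K) {x y : K} (hx : x ≠ 0) (hy : y ≠ 0) :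
    lamX a b (mixedEmbedding K (x * y)) =
      lamX a b (mixedEmbedding K x) * lamX a b (mixedEmbedding K y) := by
  rw [lamX_emb a b (mul_ne_zero hx hy), lamX_emb a b hx, lamX_emb a b hy]
  have h1 : ∏ w : {w : InfinitePlace K // w.IsComplex},
      (w.1.embedding (x * y) / (w.1 (x * y) : ℂ)) ^ (a w) =
      (∏ w : {w : InfinitePlace K // w.IsComplex}, (w.1.embedding x / (w.1 x : ℂ)) ^ (a w)) *
      ∏ w : {w : InfinitePlace K // w.IsComplex}, (w.1.embedding y / (w.1 y : ℂ)) ^ (a w) := by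
    rw [← Finset.prod_mul_distrib]
    refine Finset.prod_congr rfl fun w _ => ?_
    rw [← mul_zpow]
    congr 1
    rw [map_mul, map_mul]
    push_cast
    rw [mul_div_mul_comm]
  have h2 : ∏ w : InfinitePlace K, ((w (x * y) : ℝ) : ℂ) ^ ((b w : ℂ) * Complex.I) =
      (∏ w : InfinitePlace K, ((w x : ℝ) : ℂ) ^ ((b w : ℂ) * Complex.I)) *
      ∏ w : InfinitePlace K, ((w y : ℝ) : ℂ) ^ ((b w : ℂ) * Complex.I) := by
    rw [← Finset.prod_mul_distrib]
    refine Finset.prod_congr rfl fun w _ => ?_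
    rw [map_mul]
    push_cast
    rw [Complex.mul_cpow_ofReal_nonneg (apply_nonneg w x) (apply_nonneg w y)]
  rw [h1, h2]
  ring

/-- the character of an infinity type has absolute value one -/
lemma norm_lam (a : TA K) (b : TB K) {x : K} (hx : x ≠ 0) :
    ‖lamX a b (mixedEmbedding K x)‖ = 1 := by
  rw [lamX_emb a b hx, norm_mul, norm_prod, norm_prod]
  have h1 : ∀ w : {w : InfinitePlace K // w.IsComplex},
      ‖(w.1.embedding x / (w.1 x : ℂ)) ^ (a w)‖ = 1 := by
    intro w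
    have h3 : (0 : ℝ) < w.1 x := InfinitePlace.pos_iff.mpr hx
    rw [norm_zpow, norm_div, InfinitePlace.norm_embedding_eq, Complex.norm_real, Real.norm_eq_abs,
      abs_of_pos h3, div_self h3.ne', one_zpow]
  have h2 : ∀ w : InfinitePlace K, ‖((w x : ℝ) : ℂ) ^ ((b w : ℂ) * Complex.I)‖ = 1 := by
    intro w
    have h3 : (0 : ℝ) < w x := InfinitePlace.pos_iff.mpr hx
    rw [Complex.norm_cpow_eq_rpow_re_of_pos h3]
    simp
  rw [Finset.prod_congr rfl fun w _ => h1 w, Finset.prod_congr rfl fun w _ => h2 w]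
  simp

lemma lam_ne_zero (a : TA K) (b : TB K) {x : K} (hx : x ≠ 0) :
    lamX a b (mixedEmbedding K x) ≠ 0 := by
  intro h
  have := norm_lam a b hx
  rw [h, norm_zero] at this
  exact zero_ne_one this

/-- a character vanishes on the ideals not prime to the modulus -/
lemma zero_of_le {𝔪 : Ideal (𝓞 K)} {a : TA K} {b : TB K} {ψ : Ideal (𝓞 K) →*₀ ℂ}
    (h : IsHe 𝔪 a b ψ) {v : HeightOneSpectrum (𝓞 K)} (hv : 𝔪 ≤ v.asIdeal) {I : Ideal (𝓞 K)}
    (hI : I ≤ v.asIdeal) : ψ I = 0 := by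
  obtain ⟨I', rfl⟩ := Ideal.dvd_iff_le.mpr hI
  rw [map_mul, (h.2.2 v).mpr hv, zero_mul]

/-- a character does not vanish on the ideals prime to the modulus -/
lemma ne_zero_of {𝔪 : Ideal (𝓞 K)} {a : TA K} {b : TB K} {ψ : Ideal (𝓞 K) →*₀ ℂ}
    (h : IsHe 𝔪 a b ψ) :
    ∀ I : Ideal (𝓞 K), I ≠ 0 → (∀ v : HeightOneSpectrum (𝓞 K), 𝔪 ≤ v.asIdeal →
      ¬ I ≤ v.asIdeal) → ψ I ≠ 0 := by
  intro I
  induction I using UniqueFactorizationMonoid.induction_on_prime with
  | h₁ => intro h0; exact absurd rfl h0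
  | h₂ I hI =>
    intro _ _
    have h1 : I = 1 := isUnit_iff_eq_one.mp hI
    rw [h1, map_one]
    exact one_ne_zero
  | h₃ I P hI0 hP ih =>
    intro h0 hI
    rw [map_mul]
    have hP0 : P ≠ ⊥ := hP.ne_zero
    have hPp : P.IsPrime := Ideal.isPrime_of_prime hP
    refine mul_ne_zero ?_ (ih hI0 fun v hv hIv => hI v hv (le_trans Ideal.mul_le_right hIv))
    have h1 := h.2.2 ⟨P, hPp, hP0⟩
    intro h2
    have h3 := h1.mp h2
    exact hI ⟨P, hPp, hP0⟩ h3 Ideal.mul_le_left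

/-- values on two generators which are congruent modulo `𝔪`, prime to it and of the same signs -/
lemma gen_eq {𝔪 : Ideal (𝓞 K)} (h𝔪 : 𝔪 ≠ ⊥) {a : TA K} {b : TB K} {ψ : Ideal (𝓞 K) →*₀ ℂ}
    (h : IsHe 𝔪 a b ψ) {γ δ : 𝓞 K} (hγ0 : γ ≠ 0) (hδ0 : δ ≠ 0)
    (hγ : ∀ v : HeightOneSpectrum (𝓞 K), 𝔪 ≤ v.asIdeal → γ ∉ v.asIdeal) (hd : δ - γ ∈ 𝔪)
    (hs : ∀ φ : K →+* ℝ, 0 < φ γ ↔ 0 < φ δ) :
    ψ (Ideal.span {δ}) * lamX a b (mixedEmbedding K (γ : K)) =
      ψ (Ideal.span {γ}) * lamX a b (mixedEmbedding K (δ : K)) := by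
  obtain ⟨k, hk, hk'⟩ := Inv39.exists_pow h𝔪 γ hγ
  obtain ⟨ρ, hρ⟩ : ∃ ρ : 𝓞 K, ρ = γ ^ (2 * k - 1) := ⟨_, rfl⟩
  have hγρ : γ * ρ = γ ^ k * γ ^ k := by
    rw [hρ, ← pow_succ', ← pow_add]
    congr 1
    omega
  have h2 : γ * ρ - 1 ∈ 𝔪 := by
    rw [hγρ]
    have : γ ^ k * γ ^ k - 1 = (γ ^ k + 1) * (γ ^ k - 1) := by ring
    rw [this]
    exact Ideal.mul_mem_left _ _ hk'
  have h3 : δ * ρ - 1 ∈ 𝔪 := by
    have : δ * ρ - 1 = ρ * (δ - γ) + (γ * ρ - 1) := by ring
    rw [this]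
    exact add_mem (Ideal.mul_mem_left _ _ hd) h2
  have hρ0 : ρ ≠ 0 := by rw [hρ]; exact pow_ne_zero _ hγ0
  have hφ0 : ∀ (φ : K →+* ℝ) (x : 𝓞 K), x ≠ 0 → φ x ≠ 0 := by
    intro φ x hx
    rw [Ne, map_eq_zero]
    exact fun h => hx (RingOfIntegers.coe_eq_zero_iff.mp h)
  have hpos : ∀ φ : K →+* ℝ, 0 < φ ((γ * ρ : 𝓞 K) : K) := by
    intro φ
    rw [hγρ]
    push_cast
    rw [map_mul]
    exact mul_self_pos.mpr (by
      have := hφ0 φ (γ ^ k) (pow_ne_zero _ hγ0)
      push_cast at this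
      exact this)
  have hpos' : ∀ φ : K →+* ℝ, 0 < φ ((δ * ρ : 𝓞 K) : K) := by
    intro φ
    have h4 := hpos φ
    push_cast at h4 ⊢
    rw [map_mul] at h4 ⊢
    rcases lt_or_gt_of_ne (hφ0 φ γ hγ0) with h5 | h5
    · have h6 : φ ρ < 0 := by
        by_contra hcon
        push Not at hcon
        have := mul_nonpos_of_nonpos_of_nonneg h5.le hcon
        linarith
      have h7 : φ δ < 0 := by
        rcases lt_or_gt_of_ne (hφ0 φ δ hδ0) with h8 | h8
        · exact h8
        · have := (hs φ).mpr h8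
          linarith
      exact mul_pos_of_neg_of_neg h7 h6
    · have h6 : 0 < φ ρ := (mul_pos_iff_of_pos_left h5).mp h4
      exact mul_pos ((hs φ).mp h5) h6
  have hK : ∀ x : 𝓞 K, x ≠ 0 → (x : K) ≠ 0 := fun x hx h => hx (RingOfIntegers.coe_eq_zero_iff.mp h)
  have e1 := h.2.1 (γ * ρ) (mul_ne_zero hγ0 hρ0) h2 hpos
  have e2 := h.2.1 (δ * ρ) (mul_ne_zero hδ0 hρ0) h3 hpos'
  have c1 : ((γ * ρ : 𝓞 K) : K) = (γ : K) * (ρ : K) := rfl
  have c2 : ((δ * ρ : 𝓞 K) : K) = (δ : K) * (ρ : K) := rfl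
  rw [c1, lam_mul a b (hK γ hγ0) (hK ρ hρ0), ← Ideal.span_singleton_mul_span_singleton,
    map_mul] at e1
  rw [c2, lam_mul a b (hK δ hδ0) (hK ρ hρ0), ← Ideal.span_singleton_mul_span_singleton,
    map_mul] at e2
  have l1 := lam_ne_zero a b (hK γ hγ0)
  have l3 := lam_ne_zero a b (hK ρ hρ0)
  have h8 : ψ (Ideal.span {ρ}) ≠ 0 := by
    intro h9
    rw [h9, mul_zero] at e1
    exact mul_ne_zero l1 l3 e1.symm
  have h10 : ψ (Ideal.span {δ}) * lamX a b (mixedEmbedding K (γ : K)) *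
      (ψ (Ideal.span {ρ}) * lamX a b (mixedEmbedding K (ρ : K))) =
      ψ (Ideal.span {γ}) * lamX a b (mixedEmbedding K (δ : K)) *
      (ψ (Ideal.span {ρ}) * lamX a b (mixedEmbedding K (ρ : K))) := by
    linear_combination (lamX a b (mixedEmbedding K (γ : K)) *
      lamX a b (mixedEmbedding K (ρ : K))) * e2 - (lamX a b (mixedEmbedding K (δ : K)) *
      lamX a b (mixedEmbedding K (ρ : K))) * e1
  exact mul_right_cancel₀ (mul_ne_zero h8 l3) h10

end InvH39

variable (K : Type u) [Field K] [NumberField K]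

/-- module INVH, without hypotheses -/
theorem stINVH_39 : StINVH K := by
  intro 𝔪 h𝔪 ta tb ψ h J I I' α β hα hβ hd hs hI hI'
  have hαs : Ideal.span {α} ≠ (0 : Ideal (𝓞 K)) := by
    rw [Ideal.zero_eq_bot, Ne, Ideal.span_singleton_eq_bot]
    exact hα
  have hβs : Ideal.span {β} ≠ (0 : Ideal (𝓞 K)) := by
    rw [Ideal.zero_eq_bot, Ne, Ideal.span_singleton_eq_bot]
    exact hβ
  have hJ0 : J ≠ 0 := by
    rintro rfl
    rw [zero_mul] at hI
    exact hαs hI
  have hI0 : I ≠ 0 := by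
    rintro rfl
    rw [mul_zero] at hI
    exact hαs hI
  have hI'0 : I' ≠ 0 := by
    rintro rfl
    rw [mul_zero] at hI'
    exact hβs hI'
  -- a place dividing `𝔪` and `I` divides `I'`, and conversely
  have key : ∀ (v : HeightOneSpectrum (𝓞 K)), 𝔪 ≤ v.asIdeal → ∀ (A B : Ideal (𝓞 K)) (a b : 𝓞 K),
      a - b ∈ 𝔪 * J → Ideal.span {a} = J * A → Ideal.span {b} = J * B → A ≤ v.asIdeal →
      B ≤ v.asIdeal := by
    intro v hv A B a b hab hA hB hAv
    have h1 : a ∈ J * v.asIdeal := by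
      have : a ∈ J * A := by rw [← hA]; exact Ideal.mem_span_singleton_self a
      exact Ideal.mul_mono_right hAv this
    have h2 : a - b ∈ J * v.asIdeal := by
      rw [mul_comm J]
      exact Ideal.mul_mono_left hv hab
    have h3 : b ∈ J * v.asIdeal := by
      have := sub_mem h1 h2
      rwa [sub_sub_cancel] at this
    have h4 : J * B ≤ J * v.asIdeal := by
      rw [← hB, Ideal.span_singleton_le_iff_mem]
      exact h3
    rw [← Ideal.dvd_iff_le] at h4 ⊢
    exact (mul_dvd_mul_iff_left hJ0).mp h4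
  by_cases hA : ∃ v : HeightOneSpectrum (𝓞 K), 𝔪 ≤ v.asIdeal ∧ (I ≤ v.asIdeal ∨ I' ≤ v.asIdeal)
  · obtain ⟨v, hv, hor⟩ := hA
    have hd' : β - α ∈ 𝔪 * J := by
      have := neg_mem hd
      rwa [neg_sub] at this
    have hboth : I ≤ v.asIdeal ∧ I' ≤ v.asIdeal := by
      rcases hor with h1 | h1
      · exact ⟨h1, key v hv I I' α β hd hI hI' h1⟩
      · exact ⟨key v hv I' I β α hd' hI' hI h1, h1⟩
    rw [InvH39.zero_of_le h hv hboth.1, InvH39.zero_of_le h hv hboth.2, zero_mul, zero_mul]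
  · push Not at hA
    -- a power of `I'` is principal
    have hI'n : I' ∈ (Ideal (𝓞 K))⁰ := mem_nonZeroDivisors_of_ne_zero hI'0
    obtain ⟨n, hn⟩ : ∃ n : ℕ, n = Fintype.card (ClassGroup (𝓞 K)) := ⟨_, rfl⟩
    have hn1 : 1 ≤ n := by rw [hn]; exact Fintype.card_pos
    have hpr : (I' ^ n).IsPrincipal := by
      have h1 : ClassGroup.mk0 ⟨I', hI'n⟩ ^ n = 1 := by
        rw [hn]
        exact pow_card_eq_one
      have e : (⟨I', hI'n⟩ : (Ideal (𝓞 K))⁰) ^ n = ⟨I' ^ n, pow_mem hI'n n⟩ :=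
        Subtype.ext (by rw [SubmonoidClass.coe_pow])
      rw [← map_pow, e] at h1
      exact (ClassGroup.mk0_eq_one_iff (pow_mem hI'n n)).mp h1
    obtain ⟨γ, hγ⟩ := hpr
    have hγ' : Ideal.span {γ} = I' ^ n := hγ.symm
    obtain ⟨L, hL⟩ : ∃ L : Ideal (𝓞 K), L = I' ^ (n - 1) := ⟨_, rfl⟩
    have hIL : I' * L = Ideal.span {γ} := by
      rw [hL, hγ', ← pow_succ']
      congr 1
      omega
    have hγ0 : γ ≠ 0 := by
      rintro rfl
      rw [Ideal.span_singleton_eq_bot.mpr rfl] at hγ'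
      exact pow_ne_zero n hI'0 hγ'.symm
    have hγv : ∀ v : HeightOneSpectrum (𝓞 K), 𝔪 ≤ v.asIdeal → γ ∉ v.asIdeal := by
      intro v hv hmem
      have h1 : I' ^ n ≤ v.asIdeal := by
        rw [← hγ', Ideal.span_singleton_le_iff_mem]
        exact hmem
      exact (hA v hv).2 (v.isPrime.le_of_pow_le h1)
    -- `α γ = β δ`
    have h1 : Ideal.span {α * γ} = Ideal.span {β} * (I * L) := by
      rw [← Ideal.span_singleton_mul_span_singleton, hI, ← hIL, hI']
      ring
    have h2 : β ∣ α * γ := by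
      rw [← Ideal.mem_span_singleton, ← Ideal.span_singleton_le_iff_mem, h1]
      exact Ideal.mul_le_left
    obtain ⟨δ, hδ⟩ := h2
    have hδ0 : δ ≠ 0 := by
      rintro rfl
      rw [mul_zero] at hδ
      exact (mul_ne_zero hα hγ0) hδ
    have hδs : Ideal.span {δ} = I * L := by
      have h3 : Ideal.span {β} * Ideal.span {δ} = Ideal.span {β} * (I * L) := by
        rw [Ideal.span_singleton_mul_span_singleton, ← hδ, h1]
      exact mul_left_cancel₀ hβs h3
    have hdm : δ - γ ∈ 𝔪 := by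
      have h3 : β * (δ - γ) = (α - β) * γ := by
        rw [mul_sub, ← hδ]
        ring
      have h4 : (α - β) * γ ∈ 𝔪 * J * Ideal.span {γ} :=
        Ideal.mul_mem_mul hd (Ideal.mem_span_singleton_self γ)
      have h5 : 𝔪 * J * Ideal.span {γ} = Ideal.span {β} * (𝔪 * L) := by
        rw [← hIL, hI']
        ring
      have h6 : Ideal.span {β} * (𝔪 * L) ∣ Ideal.span {β} * Ideal.span {δ - γ} := by
        rw [Ideal.dvd_iff_le, Ideal.span_singleton_mul_span_singleton,
          Ideal.span_singleton_le_iff_mem, h3, ← h5]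
        exact h4
      have h7 := (mul_dvd_mul_iff_left hβs).mp h6
      rw [Ideal.dvd_iff_le, Ideal.span_singleton_le_iff_mem] at h7
      have h8 : 𝔪 * L ≤ 𝔪 := Ideal.mul_le_left
      exact h8 h7
    have hsig : ∀ φ : K →+* ℝ, 0 < φ γ ↔ 0 < φ δ := by
      intro φ
      have hφ0 : ∀ x : 𝓞 K, x ≠ 0 → φ x ≠ 0 := by
        intro x hx
        rw [Ne, map_eq_zero]
        exact fun h => hx (RingOfIntegers.coe_eq_zero_iff.mp h)
      have h3 : φ α * φ γ = φ β * φ δ := by
        have h3' : ((α * γ : 𝓞 K) : K) = ((β * δ : 𝓞 K) : K) := by rw [hδ]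
        have h3a : ((α * γ : 𝓞 K) : K) = (α : K) * (γ : K) := rfl
        have h3b : ((β * δ : 𝓞 K) : K) = (β : K) * (δ : K) := rfl
        rw [h3a, h3b] at h3'
        have h3c := congrArg φ h3'
        exact (map_mul φ _ _).symm.trans (h3c.trans (map_mul φ _ _))
      rcases lt_or_gt_of_ne (hφ0 β hβ) with h4 | h4
      · have h5 : φ α < 0 := by
          rcases lt_or_gt_of_ne (hφ0 α hα) with h6 | h6
          · exact h6
          · have := (hs φ).mp h6
            linarith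
        constructor
        · intro h6
          have h7 := mul_neg_of_neg_of_pos h5 h6
          rw [h3] at h7
          by_contra hcon
          push Not at hcon
          have := mul_nonneg_of_nonpos_of_nonpos h4.le hcon
          linarith
        · intro h6
          have h7 := mul_neg_of_neg_of_pos h4 h6
          rw [← h3] at h7
          by_contra hcon
          push Not at hcon
          have := mul_nonneg_of_nonpos_of_nonpos h5.le hcon
          linarith
      · have h5 : 0 < φ α := (hs φ).mpr h4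
        constructor
        · intro h6
          have h7 := mul_pos h5 h6
          rw [h3] at h7
          exact (mul_pos_iff_of_pos_left h4).mp h7
        · intro h6
          have h7 := mul_pos h4 h6
          rw [← h3] at h7
          exact (mul_pos_iff_of_pos_left h5).mp h7
    have hfin := InvH39.gen_eq h𝔪 h hγ0 hδ0 hγv hdm hsig
    rw [hδs, ← hIL, map_mul, map_mul] at hfin
    have hK : ∀ x : 𝓞 K, x ≠ 0 → (x : K) ≠ 0 :=
      fun x hx h => hx (RingOfIntegers.coe_eq_zero_iff.mp h)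
    have hL0 : ψ L ≠ 0 := by
      have h3 : ψ I' ≠ 0 := InvH39.ne_zero_of h I' hI'0 fun v hv => (hA v hv).2
      rw [hL, map_pow]
      exact pow_ne_zero _ h3
    have l2 := InvH39.lam_ne_zero ta tb (hK γ hγ0)
    have e3 : lamX ta tb (mixedEmbedding K (α : K)) * lamX ta tb (mixedEmbedding K (γ : K)) =
        lamX ta tb (mixedEmbedding K (β : K)) * lamX ta tb (mixedEmbedding K (δ : K)) := by
      rw [← InvH39.lam_mul ta tb (hK α hα) (hK γ hγ0), ← InvH39.lam_mul ta tb (hK β hβ) (hK δ hδ0)]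
      have h3' : ((α * γ : 𝓞 K) : K) = ((β * δ : 𝓞 K) : K) := by rw [hδ]
      have h3a : ((α * γ : 𝓞 K) : K) = (α : K) * (γ : K) := rfl
      have h3b : ((β * δ : 𝓞 K) : K) = (β : K) * (δ : K) := rfl
      rw [← h3a, ← h3b, h3']
    have h10 : ψ I * lamX ta tb (mixedEmbedding K (β : K)) *
        (ψ L * lamX ta tb (mixedEmbedding K (γ : K))) =
        ψ I' * lamX ta tb (mixedEmbedding K (α : K)) *
        (ψ L * lamX ta tb (mixedEmbedding K (γ : K))) := by
      linear_combination lamX ta tb (mixedEmbedding K (β : K)) * hfin - (ψ I' * ψ L) * e3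
    exact mul_right_cancel₀ (mul_ne_zero hL0 l2) h10

end Pool.Agent.Lib.MP_bf61d2_nt.Artin.Ray
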