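import Mathlib
import Pool.Agent.Lib.MP_bf61d2_nt.Trim.Artin.H.DefsH
import Pool.Agent.Lib.MP_bf61d2_nt.Trim.Artin.H.StmtsH
import Pool.Agent.Lib.MP_bf61d2_nt.Trim.Artin.R.DefsR
import Pool.Agent.Lib.MP_bf61d2_nt.Trim.Artin.R.LAT49
import Pool.Agent.Lib.MP_bf61d2_nt.Trim.Artin.T.ZM84
import Pool.Agent.Lib.MP_bf61d2_nt.Trim.Artin.ZA69
import Pool.Agent.Lib.MP_bf61d2_nt.Trim.Artin.ZB69
import Pool.Agent.Lib.MP_bf61d2_nt.Trim.Zeta.Cone
import Pool.Agent.Lib.MP_bf61d2_nt.Trim.Zeta.Dilation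
import Pool.Agent.Lib.MP_bf61d2_nt.Trim.Zeta.Lattice
import Pool.Agent.Lib.MP_bf61d2_nt.Trim.Zeta.Lip

set_option autoImplicit false

/-!
HECKE (MP_bf61d2_nt), module LATH: the lattice sums with periodic weights, prescribed signs at the
real places and an infinity type continue to a half plane to the left of `Re s = 1`, with at most
a simple pole at `1`, and are of polynomial growth there, also in the period and in the type.
-/

namespace NumberField
end NumberField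

namespace Pool.Agent.Lib.MP_bf61d2_nt.Zeta
end Pool.Agent.Lib.MP_bf61d2_nt.Zeta

namespace Pool.Agent.Lib.MP_bf61d2_nt.Artin.Z69
end Pool.Agent.Lib.MP_bf61d2_nt.Artin.Z69

namespace Pool.Agent.Lib.MP_bf61d2_nt.Artin.ZB69
end Pool.Agent.Lib.MP_bf61d2_nt.Artin.ZB69

namespace Pool.Agent.Lib.MP_bf61d2_nt.Artin.Ray
end Pool.Agent.Lib.MP_bf61d2_nt.Artin.Ray

namespace Pool.Agent.Lib.MP_bf61d2_nt.Artin.Ray.LAT49
end Pool.Agent.Lib.MP_bf61d2_nt.Artin.Ray.LAT49

namespace Pool.Agent.Lib.MP_bf61d2_nt.Artin.Ray.LATH49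

open NumberField NumberField.mixedEmbedding NumberField.Units NumberField.InfinitePlace

open Module Filter Topology

open Pool.Agent.Lib.MP_bf61d2_nt.Zeta

open Pool.Agent.Lib.MP_bf61d2_nt.Artin.Z69

open Pool.Agent.Lib.MP_bf61d2_nt.Artin.ZB69

open Pool.Agent.Lib.MP_bf61d2_nt.Artin.Ray

open Pool.Agent.Lib.MP_bf61d2_nt.Artin.Ray.LAT49 (norm_hS_le hS_zero hS_smul differentiable_hS)

open scoped Classical nonZeroDivisors

universe u

section Basic

variable {K : Type*} [Field K] [NumberField K]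

lemma one_le_sz (a : TA K) (b : TB K) : 1 ≤ sz a b := by
  unfold sz
  have h1 : 0 ≤ ∑ w : {w : InfinitePlace K // w.IsComplex}, |(a w : ℝ)| :=
    Finset.sum_nonneg fun _ _ => abs_nonneg _
  have h2 : 0 ≤ ∑ w : InfinitePlace K, |b w| := Finset.sum_nonneg fun _ _ => abs_nonneg _
  linarith

lemma norm_unit_zpow_le (z : ℂ) (k : ℤ) : ‖(z / (‖z‖ : ℂ)) ^ k‖ ≤ 1 := by
  rw [norm_zpow, norm_div, Complex.norm_real, norm_norm]
  by_cases hz : ‖z‖ = 0
  · rw [hz, div_zero]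
    by_cases hk : k = 0
    · rw [hk, zpow_zero]
    · rw [zero_zpow _ hk]; norm_num
  · rw [div_self hz, one_zpow]

lemma norm_lamX_le (a : TA K) (b : TB K) (x : mixedSpace K) : ‖lamX a b x‖ ≤ 1 := by
  unfold lamX
  rw [norm_mul, Complex.norm_exp_ofReal_mul_I, mul_one, norm_prod]
  exact Finset.prod_le_one (fun _ _ => norm_nonneg _) fun w _ => norm_unit_zpow_le _ _

lemma lamX_smul {a : TA K} {b : TB K} (hb : ∑ w, b w = 0) {m : ℕ} (hm : m ≠ 0)
    {x : mixedSpace K} (hx : mixedEmbedding.norm x ≠ 0) :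
    lamX a b ((m : ℝ) • x) = lamX a b x := by
  have hm' : (0 : ℝ) < m := by exact_mod_cast Nat.pos_of_ne_zero hm
  have hw : ∀ w, normAtPlace w x ≠ 0 := by
    intro w h
    apply hx
    rw [mixedEmbedding.norm_apply]
    refine Finset.prod_eq_zero (Finset.mem_univ w) ?_
    rw [h, zero_pow]
    exact mult_ne_zero
  unfold lamX
  congr 1
  · refine Finset.prod_congr rfl fun w _ => ?_
    have h1 : ((m : ℝ) • x).2 w = (m : ℂ) * x.2 w := by
      have : ((m : ℝ) • x).2 w = (m : ℝ) • x.2 w := rfl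
      rw [this, Complex.real_smul, Complex.ofReal_natCast]
    rw [h1, norm_mul, Complex.norm_natCast]
    congr 1
    push_cast
    have hmc : (m : ℂ) ≠ 0 := Nat.cast_ne_zero.mpr hm
    rw [mul_div_mul_left _ _ hmc]
  · congr 3
    have h1 : ∀ w, Real.log (normAtPlace w ((m : ℝ) • x)) =
        Real.log m + Real.log (normAtPlace w x) := by
      intro w
      rw [normAtPlace_smul, abs_of_pos hm', Real.log_mul hm'.ne' (hw w)]
    simp only [h1, mul_add, Finset.sum_add_distrib, ← Finset.sum_mul]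
    rw [hb, zero_mul, zero_add]

lemma hT_zero (a : TA K) (b : TB K) (σ : SG K) (s : ℂ) : hT a b σ s (0 : mixedSpace K) = 0 := by
  unfold hT
  rw [hS_zero, mul_zero]

lemma norm_hT_le (a : TA K) (b : TB K) (σ : SG K) (s : ℂ) (x : mixedSpace K) :
    ‖hT a b σ s x‖ ≤ ‖hh s x‖ := by
  unfold hT
  rw [norm_mul]
  exact (mul_le_of_le_one_left (norm_nonneg _) (norm_lamX_le a b x)).trans (norm_hS_le σ s x)

lemma hT_smul {a : TA K} {b : TB K} (hb : ∑ w, b w = 0) {m : ℕ} (hm : m ≠ 0) (σ : SG K) (s : ℂ)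
    (x : mixedSpace K) : hT a b σ s ((m : ℝ) • x) = Zeta.fac K m s * hT a b σ s x := by
  by_cases hx : mixedEmbedding.norm x = 0
  · have h1 : hS σ s x = 0 := by
      unfold hS
      rw [hh, if_pos hx, ite_self]
    unfold hT
    rw [hS_smul hm, h1]
    ring
  · unfold hT
    rw [hS_smul hm, lamX_smul hb hm hx]
    ring

lemma differentiable_hT (a : TA K) (b : TB K) (σ : SG K) (x : mixedSpace K) :
    Differentiable ℂ fun s => hT a b σ s x := by
  unfold hT
  exact (differentiable_hS σ x).const_mul _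

/-- The polynomial bound, with a constant chosen before the functions. -/
theorem cont_bound (K : Type*) [Field K] [NumberField K] {a b : ℝ} (ha : a < b) (hb : b < 1)
    (hb0 : 0 < b) {C : ℝ} (hC : 0 < C) (k : ℕ) :
    ∃ A : ℝ, 0 < A ∧ ∀ (D H : ℂ → ℂ), DifferentiableOn ℂ H {s | a < s.re} →
      (∀ s, a < s.re → H s * Qk K 1 s = D s) →
      (∀ s, a < s.re → ‖D s‖ ≤ C * (1 + ‖s‖) ^ k) →
      ∀ s : ℂ, b ≤ s.re → s.re ≤ 2 → ‖H s‖ ≤ A * (1 + |s.im|) ^ (k + 1) := by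
  have hL := L2_pos K
  set L := L2 K with hLdef
  have hc1 : 0 < Real.exp ((1 - b) * L) - 1 := by
    have : 0 < (1 - b) * L := mul_pos (by linarith) hL
    linarith [Real.add_one_lt_exp this.ne']
  have hc2 : 0 < 1 - Real.exp (-((2 - 1) * L)) := by
    have : Real.exp (-((2 - 1) * L)) < Real.exp 0 := Real.exp_lt_exp.mpr (by linarith)
    rw [Real.exp_zero] at this
    linarith
  obtain ⟨c, hc0, hcl', hcr, hch⟩ : ∃ c : ℝ, 0 < c ∧ c ≤ Real.exp ((1 - b) * L) - 1 ∧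
      c ≤ 1 - Real.exp (-((2 - 1) * L)) ∧ c ≤ 1 :=
    ⟨min (min (Real.exp ((1 - b) * L) - 1) (1 - Real.exp (-((2 - 1) * L)))) 1,
      lt_min (lt_min hc1 hc2) one_pos, (min_le_left _ _).trans (min_le_left _ _),
      (min_le_left _ _).trans (min_le_right _ _), min_le_right _ _⟩
  set W : ℝ := 3 + 2 * Real.pi / L with hW
  have hW0 : 3 ≤ W := by
    have : 0 ≤ 2 * Real.pi / L := by positivity
    linarith
  refine ⟨C / c * W ^ (k + 1), by positivity, fun D H hH hQ hD s hs1 hs2 => ?_⟩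
  have hkey : ∀ s : ℂ, a < s.re → c ≤ ‖qk K 1 s‖ → ‖H s‖ ≤ C / c * (1 + ‖s‖) ^ (k + 1) := by
    intro s hs hcs
    have h1 : H s * qk K 1 s = (s - 1) * D s := by
      rw [← hQ s hs, ← mul_Qk]
      ring
    have h2 : ‖H s‖ * ‖qk K 1 s‖ = ‖s - 1‖ * ‖D s‖ := by
      rw [← norm_mul, h1, norm_mul]
    have h3 : ‖s - 1‖ ≤ 1 + ‖s‖ := by
      have := norm_sub_le s 1
      rw [norm_one] at this
      linarith
    have h4 : ‖s - 1‖ * ‖D s‖ ≤ (1 + ‖s‖) * (C * (1 + ‖s‖) ^ k) :=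
      mul_le_mul h3 (hD s hs) (norm_nonneg _) (by positivity)
    have h5 : ‖H s‖ * c ≤ C * (1 + ‖s‖) ^ (k + 1) := by
      calc ‖H s‖ * c ≤ ‖H s‖ * ‖qk K 1 s‖ := mul_le_mul_of_nonneg_left hcs (norm_nonneg _)
        _ ≤ (1 + ‖s‖) * (C * (1 + ‖s‖) ^ k) := by rw [h2]; exact h4
        _ = _ := by ring
    rw [div_mul_eq_mul_div, le_div_iff₀ hc0]
    exact h5
  set j : ℤ := round (s.im * L / (2 * Real.pi)) with hj
  set τ : ℝ := 2 * Real.pi * j / L with hτ
  have hpi := Real.pi_pos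
  have hsτ : |s.im - τ| ≤ Real.pi / L := by
    have h1 := abs_sub_round (s.im * L / (2 * Real.pi))
    rw [← hj] at h1
    have h2 : s.im - τ = (s.im * L / (2 * Real.pi) - j) * (2 * Real.pi / L) := by
      rw [hτ]; field_simp
    rw [h2, abs_mul, abs_of_pos (show 0 < 2 * Real.pi / L by positivity)]
    calc _ ≤ 1 / 2 * (2 * Real.pi / L) := mul_le_mul_of_nonneg_right h1 (by positivity)
      _ = Real.pi / L := by ring
  have hb2 : b < 2 := by linarith
  have hττ : τ - Real.pi / L < τ + Real.pi / L := by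
    have : 0 < Real.pi / L := by positivity
    linarith
  set U : Set ℂ := Set.Ioo b 2 ×ℂ Set.Ioo (τ - Real.pi / L) (τ + Real.pi / L) with hU
  have hcl : closure U = Set.Icc b 2 ×ℂ Set.Icc (τ - Real.pi / L) (τ + Real.pi / L) := by
    rw [hU, Complex.closure_reProdIm, closure_Ioo hb2.ne, closure_Ioo hττ.ne]
  have hsU : s ∈ closure U := by
    rw [hcl, Complex.mem_reProdIm]
    have := abs_le.mp hsτ
    exact ⟨⟨hs1, hs2⟩, by linarith, by linarith⟩
  have hsub : closure U ⊆ {z : ℂ | a < z.re} := by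
    rw [hcl]
    intro z hz
    rw [Complex.mem_reProdIm] at hz
    exact lt_of_lt_of_le ha hz.1.1
  have hbd : Bornology.IsBounded U :=
    (Metric.isBounded_Ioo _ _).reProdIm (Metric.isBounded_Ioo _ _)
  have hdc : DiffContOnCl ℂ H U :=
    ⟨hH.mono (subset_closure.trans hsub), hH.continuousOn.mono hsub⟩
  have hnorm : ∀ z ∈ closure U, 1 + ‖z‖ ≤ W * (1 + |s.im|) := by
    intro z hz
    rw [hcl, Complex.mem_reProdIm] at hz
    have h1 := Complex.norm_le_abs_re_add_abs_im z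
    have h2 : |z.re| ≤ 2 := abs_le.mpr ⟨by linarith [hz.1.1], hz.1.2⟩
    have h3 : |z.im - s.im| ≤ 2 * Real.pi / L := by
      have h4 := abs_le.mp hsτ
      have h5 : 2 * Real.pi / L = Real.pi / L + Real.pi / L := by ring
      rw [abs_le, h5]
      exact ⟨by linarith [hz.2.1], by linarith [hz.2.2]⟩
    have h4 : |z.im| ≤ |s.im| + 2 * Real.pi / L := by
      have h5 : z.im = s.im + (z.im - s.im) := by ring
      rw [h5]
      exact (abs_add_le _ _).trans (by linarith)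
    have h6 : 0 ≤ |s.im| := abs_nonneg _
    have h7 : 0 ≤ (W - 1) * |s.im| := mul_nonneg (by linarith) h6
    calc 1 + ‖z‖ ≤ W + |s.im| := by rw [hW]; linarith
      _ ≤ W * (1 + |s.im|) := by linarith
  have hfr : ∀ z ∈ frontier U, ‖H z‖ ≤ C / c * W ^ (k + 1) * (1 + |s.im|) ^ (k + 1) := by
    intro z hz
    have hzc : z ∈ closure U := frontier_subset_closure hz
    have h1 : c ≤ ‖qk K 1 z‖ := by
      rw [hU, Complex.frontier_reProdIm, closure_Ioo hb2.ne, closure_Ioo hττ.ne,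
        frontier_Ioo hb2, frontier_Ioo hττ] at hz
      rcases hz with hz | hz
      · rw [Complex.mem_reProdIm] at hz
        rcases hz.2 with h | h
        · refine hch.trans (norm_q_horizontal K (j := j - 1) ?_)
          rw [h, hτ, ← hLdef]
          push_cast
          field_simp
          ring
        · refine hch.trans (norm_q_horizontal K (j := j) ?_)
          rw [Set.mem_singleton_iff] at h
          rw [h, hτ, ← hLdef]
          field_simp
      · rw [Complex.mem_reProdIm] at hz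
        rcases hz.1 with h | h
        · refine hcl'.trans ?_
          have := norm_q_left K (s := z)
          rwa [h] at this
        · rw [Set.mem_singleton_iff] at h
          refine hcr.trans ?_
          have := norm_q_right K (s := z)
          rwa [h] at this
    refine (hkey z (hsub hzc) h1).trans ?_
    have h2 := pow_le_pow_left₀ (by positivity) (hnorm z hzc) (k + 1)
    rw [mul_pow] at h2
    calc C / c * (1 + ‖z‖) ^ (k + 1) ≤ C / c * (W ^ (k + 1) * (1 + |s.im|) ^ (k + 1)) :=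
          mul_le_mul_of_nonneg_left h2 (by positivity)
      _ = _ := by ring
  exact Complex.norm_le_of_forall_mem_frontier_norm_le hbd hdc hfr hsU

end Basic

section Sum

variable {K : Type u} [Field K] [NumberField K]

variable {ι : Type*} [Fintype ι] (b : Basis ι ℝ (mixedSpace K))

lemma summable_hT (hN : ∀ a : ι → ℤ, a ≠ 0 → 1 ≤ mixedEmbedding.norm (pt b a))
    (α : TA K) (β : TB K) (σ : SG K) {s : ℂ}
    (hs : 1 < s.re) : Summable fun a : ι → ℤ => hT α β σ s (pt b a) :=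
  Summable.of_norm_bounded (summable_hh b hN hs).norm fun _ => norm_hT_le _ _ _ _ _

lemma summable_wt_hT (hN : ∀ a : ι → ℤ, a ≠ 0 → 1 ≤ mixedEmbedding.norm (pt b a))
    (α : TA K) (β : TB K) (σ : SG K)
    {P : (ι → ℤ) → ℂ} (hP : ∀ a, ‖P a‖ ≤ 1) {s : ℂ} (hs : 1 < s.re) :
    Summable fun a : ι → ℤ => P a * hT α β σ s (pt b a) := by
  refine Summable.of_norm_bounded (summable_hh b hN hs).norm fun a => ?_
  rw [norm_mul]
  exact (mul_le_of_le_one_left (norm_nonneg _) (hP a)).trans (norm_hT_le _ _ _ _ _)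

/-- The weighted difference sum on an orthant. -/
noncomputable def DT (α : TA K) (β : TB K) (σ : SG K) (m : ℕ) [NeZero m] (p : (ι → Fin m) → ℂ) (s : ℂ) : ℂ :=
  ∑' y : ι → ℤ, ∑ c : ι → Fin m,
    p c * (hT α β σ s (pt b (dv ι m (y, c))) - hT α β σ s (pt b (fun i => y i * m)))

/-- The difference bound, with a constant independent of `m` and of the orthant. -/
lemma diff_bound_T (hL : StLIPH K) (hN : ∀ a : ι → ℤ, a ≠ 0 → 1 ≤ mixedEmbedding.norm (pt b a))
    {σ₀ : ℝ} (hσ : 0 < σ₀) : ∃ C : ℝ, 0 < C ∧ ∀ (α : TA K) (β : TB K), ∑ w, β w = 0 →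
      ∀ (σ : SG K) (m : ℕ) [NeZero m], ∀ R : ℝ, 1 ≤ R →
      ∀ (y : ι → ℤ), y ≠ 0 → ∀ c : ι → Fin m, ∀ s : ℂ, σ₀ ≤ s.re → sz α β * (1 + ‖s‖) ≤ R →
      ‖hT α β σ s (pt b (dv ι m (y, c))) - hT α β σ s (pt b (fun i => y i * m))‖ ≤
        C * R ^ (finrank ℚ K * σ₀ + 1) * ‖pt b y‖ ^ (-(finrank ℚ K * σ₀ + 1)) := by
  set c₀ : ℝ := ∑ i, ‖b i‖ + 1 with hc₀
  have hc₀0 : 0 < c₀ := by
    have : 0 ≤ ∑ i, ‖b i‖ := Finset.sum_nonneg fun i _ => by positivity
    linarith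
  obtain ⟨C₁, C₂, hC₁, hC₂, hlip⟩ := hL c₀ σ₀ hc₀0 hσ
  set e : ℝ := finrank ℚ K * σ₀ + 1 with he
  have he1 : 1 ≤ e := by
    have : (0 : ℝ) ≤ finrank ℚ K * σ₀ := by positivity
    linarith
  have he0 : 0 < e := by linarith
  refine ⟨C₁ + 2 * C₂ ^ e, by positivity, fun α β hβ σ m _ R hR y hy c s hs1 hs2 => ?_⟩
  have hm0 : m ≠ 0 := NeZero.ne m
  have hm1 : (1 : ℝ) ≤ m := by exact_mod_cast Nat.one_le_iff_ne_zero.mpr hm0
  have hmp : (0 : ℝ) < m := by linarith
  have hR0 : 0 < R := by linarith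
  have hRe : R ≤ R ^ e := by
    calc R = R ^ (1 : ℝ) := (Real.rpow_one R).symm
      _ ≤ R ^ e := Real.rpow_le_rpow_of_exponent_le hR he1
  set x := pt b y with hx
  set x' := (m : ℝ)⁻¹ • pt b (dv ι m (y, c)) with hx'
  have hxm : pt b (fun i => y i * m) = (m : ℝ) • x := pt_mul b m y
  have hxm' : pt b (dv ι m (y, c)) = (m : ℝ) • x' := by
    rw [hx', smul_smul, mul_inv_cancel₀ hmp.ne', one_smul]
  have hy0 : 0 < ‖x‖ := norm_pos_iff.mpr (pt_ne_zero b hy)
  have h0 : (fun i => y i * (m : ℤ)) ≠ 0 := by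
    intro h
    apply hy
    funext i
    have := congrFun h i
    simpa [hm0] using this
  have h0' : dv ι m (y, c) ≠ 0 := by
    intro h
    have h1 : dv ι m (0, 0) = 0 := by
      rw [dv_apply]; funext i; simp
    rw [← h1] at h
    exact hy (congrArg Prod.fst ((dv ι m).injective h))
  have hNx := hN _ h0
  have hNx' := hN _ h0'
  have hnx : mixedEmbedding.norm x ≠ 0 := by
    intro h
    rw [hxm, mixedEmbedding.norm_smul, h, mul_zero] at hNx
    linarith
  have hnx' : mixedEmbedding.norm x' ≠ 0 := by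
    intro h
    rw [hxm', mixedEmbedding.norm_smul, h, mul_zero] at hNx'
    linarith
  have hdist : ‖x - x'‖ ≤ c₀ := by
    have e1 : x - x' = -((m : ℝ)⁻¹ • pt b (fun i => ((c i : ℕ) : ℤ))) := by
      rw [hx', dv_apply, pt_add, hxm, smul_add, smul_smul, inv_mul_cancel₀ hmp.ne', one_smul]
      abel
    rw [e1, norm_neg, _root_.norm_smul, norm_inv, Real.norm_natCast, pt]
    have h1 : ‖∑ i, ((((c i : ℕ) : ℤ) : ℝ)) • b i‖ ≤ m * ∑ i, ‖b i‖ := by
      refine (norm_sum_le _ _).trans ?_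
      rw [Finset.mul_sum]
      refine Finset.sum_le_sum fun i _ => ?_
      rw [_root_.norm_smul, Real.norm_eq_abs]
      refine mul_le_mul_of_nonneg_right ?_ (norm_nonneg _)
      rw [Int.cast_natCast, abs_of_nonneg (Nat.cast_nonneg _)]
      exact_mod_cast (c i).2.le
    calc (m : ℝ)⁻¹ * ‖∑ i, ((((c i : ℕ) : ℤ) : ℝ)) • b i‖ ≤ (m : ℝ)⁻¹ * (m * ∑ i, ‖b i‖) :=
          mul_le_mul_of_nonneg_left h1 (inv_nonneg.mpr hmp.le)
      _ = ∑ i, ‖b i‖ := by rw [← mul_assoc, inv_mul_cancel₀ hmp.ne', one_mul]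
      _ ≤ c₀ := by rw [hc₀]; linarith
  have hpow : (0 : ℝ) < ‖x‖ ^ (-e) := Real.rpow_pos_of_pos hy0 _
  have hRp : 0 < R ^ e := Real.rpow_pos_of_pos hR0 _
  rcases le_or_gt (C₂ * R) ‖x‖ with h | h
  · have h1 := hlip R hR x x' hnx hnx' hdist h α β σ s hs1 hs2
    have h1' : ‖hT α β σ s (pt b (dv ι m (y, c))) - hT α β σ s (pt b (fun i => y i * m))‖ ≤
        ‖hT α β σ s x' - hT α β σ s x‖ := by
      rw [hxm, hxm', hT_smul hβ hm0, hT_smul hβ hm0, ← mul_sub, norm_mul]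
      exact mul_le_of_le_one_left (norm_nonneg _) (ZM84.norm_fac_le (by linarith))
    have h3 : 0 ≤ 2 * C₂ ^ e * R ^ e * ‖x‖ ^ (-e) := by positivity
    have h4 : C₁ * R ≤ C₁ * R ^ e := mul_le_mul_of_nonneg_left hRe hC₁.le
    calc _ ≤ C₁ * R * ‖x‖ ^ (-e) := h1'.trans h1
      _ ≤ C₁ * R ^ e * ‖x‖ ^ (-e) := mul_le_mul_of_nonneg_right h4 hpow.le
      _ ≤ C₁ * R ^ e * ‖x‖ ^ (-e) + 2 * C₂ ^ e * R ^ e * ‖x‖ ^ (-e) := by linarith
      _ = (C₁ + 2 * C₂ ^ e) * R ^ e * ‖x‖ ^ (-e) := by ring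
  · have h2 : ‖hT α β σ s (pt b (dv ι m (y, c))) - hT α β σ s (pt b (fun i => y i * m))‖ ≤ 2 := by
      refine (norm_sub_le _ _).trans ?_
      linarith [(norm_hT_le α β σ s (pt b (dv ι m (y, c)))).trans
          (norm_hh_le_one (s := s) (by linarith) hNx'),
        (norm_hT_le α β σ s (pt b (fun i => y i * m))).trans
          (norm_hh_le_one (s := s) (by linarith) hNx)]
    have h3 : 1 ≤ C₂ ^ e * R ^ e * ‖x‖ ^ (-e) := by
      have h4 : ‖x‖ ^ e ≤ (C₂ * R) ^ e := Real.rpow_le_rpow hy0.le h.le he0.le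
      rw [Real.mul_rpow hC₂.le hR0.le] at h4
      calc (1 : ℝ) = ‖x‖ ^ e * ‖x‖ ^ (-e) := by
            rw [← Real.rpow_add hy0, add_neg_cancel, Real.rpow_zero]
        _ ≤ _ := mul_le_mul_of_nonneg_right h4 hpow.le
    have h5 : 0 ≤ C₁ * R ^ e * ‖x‖ ^ (-e) := by positivity
    calc _ ≤ 2 * (C₂ ^ e * R ^ e * ‖x‖ ^ (-e)) := by linarith
      _ ≤ C₁ * R ^ e * ‖x‖ ^ (-e) + 2 * (C₂ ^ e * R ^ e * ‖x‖ ^ (-e)) := by linarith
      _ = (C₁ + 2 * C₂ ^ e) * R ^ e * ‖x‖ ^ (-e) := by ring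

/-- The difference sums: analytic, with a bound linear in the sum of the weights. -/
theorem DT_bound (hL : StLIPH K) (hN : ∀ a : ι → ℤ, a ≠ 0 → 1 ≤ mixedEmbedding.norm (pt b a)) :
    ∃ C : ℝ, 0 < C ∧ ∀ (α : TA K) (β : TB K), ∑ w, β w = 0 → ∀ (σ : SG K) (m : ℕ) [NeZero m]
      (p : (ι → Fin m) → ℂ),
      DifferentiableOn ℂ (DT b α β σ m p) {s | sg K < s.re} ∧ ∀ s : ℂ, sg K < s.re →
      ‖DT b α β σ m p s‖ ≤ C * (∑ c, ‖p c‖) * (sz α β * (1 + ‖s‖)) ^ (finrank ℚ K + 1) := by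
  obtain ⟨hσ0, hσ1, hσn⟩ := sg_bounds K
  obtain ⟨C, hC0, hC⟩ := diff_bound_T b hL hN hσ0
  set e : ℝ := finrank ℚ K * sg K + 1 with he
  have hn : (1 : ℝ) ≤ finrank ℚ K := by exact_mod_cast finrank_pos
  have he2 : e ≤ (finrank ℚ K + 1 : ℕ) := by
    push_cast
    nlinarith
  have he0 : 0 ≤ e := by linarith
  have hs1 := summable_pt b (ρ := e) (by rw [mixedEmbedding.finrank]; exact hσn)
  have hs2 : Summable fun y : ι → ℤ => if y = 0 then (1 : ℝ) else 0 :=
    summable_of_ne_finset_zero (s := {0}) fun y hy => by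
      rw [if_neg (by simpa using hy)]
  have h5 : 0 ≤ ∑' y : ι → ℤ, ‖pt b y‖ ^ (-e) := tsum_nonneg fun y => by positivity
  refine ⟨C * (∑' y : ι → ℤ, ‖pt b y‖ ^ (-e)) + 1, by positivity, fun α β hβ σ m _ p => ?_⟩
  have hz1 : 1 ≤ sz α β := one_le_sz α β
  have hz0 : 0 < sz α β := by linarith
  set P : ℝ := ∑ c, ‖p c‖ with hP
  have hP0 : 0 ≤ P := Finset.sum_nonneg fun _ _ => norm_nonneg _
  have hterm : ∀ R : ℝ, 1 ≤ R → ∀ y : ι → ℤ, ∀ s : ℂ, sg K < s.re → sz α β * (1 + ‖s‖) ≤ R →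
      ‖∑ c : ι → Fin m, p c * (hT α β σ s (pt b (dv ι m (y, c))) -
        hT α β σ s (pt b (fun i => y i * m)))‖ ≤
        P * (C * R ^ e * ‖pt b y‖ ^ (-e) + if y = 0 then (1 : ℝ) else 0) := by
    intro R hR y s hs hsR
    have hR0 : 0 ≤ R := by linarith
    refine (norm_sum_le _ _).trans ?_
    rw [hP, Finset.sum_mul]
    refine Finset.sum_le_sum fun c _ => ?_
    rw [norm_mul]
    refine mul_le_mul_of_nonneg_left ?_ (norm_nonneg _)
    by_cases hy : y = 0
    · rw [if_pos hy, hy]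
      have e1 : (fun i => (0 : ι → ℤ) i * (m : ℤ)) = 0 := by funext i; simp
      rw [e1, pt_zero, hT_zero, sub_zero]
      have h4 : ‖hT α β σ s (pt b (dv ι m (0, c)))‖ ≤ 1 := by
        by_cases h5 : dv ι m (0, c) = 0
        · rw [h5, pt_zero, hT_zero, norm_zero]; norm_num
        · exact (norm_hT_le _ _ _ _ _).trans (norm_hh_le_one (hσ0.trans hs).le (hN _ h5))
      have h6 : 0 ≤ C * R ^ e * ‖(0 : mixedSpace K)‖ ^ (-e) := by positivity
      linarith
    · rw [if_neg hy, add_zero]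
      exact hC α β hβ σ m R hR y hy c s hs.le hsR
  have hdiffR : ∀ R : ℝ, 0 < R →
      DifferentiableOn ℂ (DT b α β σ m p) ({s | sg K < s.re} ∩ {s | ‖s‖ < R}) := by
    intro R hR
    have hUo : IsOpen ({s : ℂ | sg K < s.re} ∩ {s : ℂ | ‖s‖ < R}) :=
      (isOpen_lt continuous_const Complex.continuous_re).inter
        (isOpen_lt continuous_norm continuous_const)
    have hR' : 1 ≤ sz α β * (1 + R) := by nlinarith
    have hs3 := ((hs1.mul_left (C * (sz α β * (1 + R)) ^ e)).add hs2).mul_left P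
    refine Complex.differentiableOn_tsum_of_summable_norm hs3 (fun y => ?_) hUo fun y s hs => ?_
    · exact (Differentiable.fun_sum fun c _ =>
        (((differentiable_hT α β σ _).sub (differentiable_hT α β σ _)).const_mul
          _)).differentiableOn
    · refine hterm (sz α β * (1 + R)) hR' y s hs.1 ?_
      have : ‖s‖ < R := hs.2
      exact mul_le_mul_of_nonneg_left (by linarith) hz0.le
  refine ⟨?_, ?_⟩
  · intro s hs
    have h1 := hdiffR (‖s‖ + 1) (by linarith [norm_nonneg s]) s ⟨hs, by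
      show ‖s‖ < ‖s‖ + 1
      linarith⟩
    have hUo : IsOpen ({s : ℂ | sg K < s.re} ∩ {z : ℂ | ‖z‖ < ‖s‖ + 1}) :=
      (isOpen_lt continuous_const Complex.continuous_re).inter
        (isOpen_lt continuous_norm continuous_const)
    exact (h1.differentiableAt (hUo.mem_nhds ⟨hs, by
      show ‖s‖ < ‖s‖ + 1
      linarith⟩)).differentiableWithinAt
  · intro s hs
    set R : ℝ := sz α β * (1 + ‖s‖) with hR
    have hR1 : 1 ≤ R := by rw [hR]; nlinarith [norm_nonneg s]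
    have hR0 : 0 < R := by linarith
    have hs3 := ((hs1.mul_left (C * R ^ e)).add hs2).mul_left P
    have h1 := tsum_of_norm_bounded hs3.hasSum fun y => hterm R hR1 y s hs le_rfl
    have h2 : ∑' y : ι → ℤ, P * (C * R ^ e * ‖pt b y‖ ^ (-e) + if y = 0 then (1 : ℝ) else 0) =
        P * (C * R ^ e * (∑' y : ι → ℤ, ‖pt b y‖ ^ (-e)) + 1) := by
      rw [tsum_mul_left, (hs1.mul_left (C * R ^ e)).tsum_add hs2, tsum_mul_left, tsum_ite_eq]
    rw [h2] at h1
    refine (show ‖DT b α β σ m p s‖ ≤ _ from h1).trans ?_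
    have h3 : R ^ e ≤ R ^ (finrank ℚ K + 1) := by
      rw [← Real.rpow_natCast]
      exact Real.rpow_le_rpow_of_exponent_le hR1 he2
    have h4 : (1 : ℝ) ≤ R ^ (finrank ℚ K + 1) := one_le_pow₀ hR1
    have h6 : C * R ^ e * (∑' y : ι → ℤ, ‖pt b y‖ ^ (-e)) ≤
        C * (∑' y : ι → ℤ, ‖pt b y‖ ^ (-e)) * R ^ (finrank ℚ K + 1) := by
      have := mul_le_mul_of_nonneg_left h3 (mul_nonneg hC0.le h5)
      linarith
    have h7 : C * R ^ e * (∑' y : ι → ℤ, ‖pt b y‖ ^ (-e)) + 1 ≤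
        (C * (∑' y : ι → ℤ, ‖pt b y‖ ^ (-e)) + 1) * R ^ (finrank ℚ K + 1) := by linarith
    have h8 := mul_le_mul_of_nonneg_left h7 hP0
    linarith

/-- The weighted lattice sum on an orthant. -/
theorem splitT (hN : ∀ a : ι → ℤ, a ≠ 0 → 1 ≤ mixedEmbedding.norm (pt b a)) {α : TA K}
    {β : TB K} (hβ : ∑ w, β w = 0) (σ : SG K) (m : ℕ) [NeZero m] (p : (ι → Fin m) → ℂ) {P : (ι → ℤ) → ℂ} (hP1 : ∀ a, ‖P a‖ ≤ 1)
    (hP : ∀ y c, P (dv ι m (y, c)) = p c) {s : ℂ} (hs : 1 < s.re) :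
    ∑' a : ι → ℤ, P a * hT α β σ s (pt b a) =
      DT b α β σ m p s + (∑ c, p c) * (Zeta.fac K m s * ∑' a : ι → ℤ, hT α β σ s (pt b a)) := by
  have hsm := summable_wt_hT b hN α β σ hP1 hs
  have h1 : Summable fun q : (ι → ℤ) × (ι → Fin m) => P (dv ι m q) * hT α β σ s (pt b (dv ι m q)) :=
    ((dv ι m).summable_iff (f := fun a => P a * hT α β σ s (pt b a))).mpr hsm
  have h2 : ∑' a, P a * hT α β σ s (pt b a) =
      ∑' y : ι → ℤ, ∑ c : ι → Fin m, p c * hT α β σ s (pt b (dv ι m (y, c))) := by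
    rw [← (dv ι m).tsum_eq fun a => P a * hT α β σ s (pt b a), h1.tsum_prod]
    refine tsum_congr fun y => ?_
    rw [tsum_fintype]
    exact Finset.sum_congr rfl fun c _ => by rw [hP]
  have h3 : Summable fun y : ι → ℤ => ∑ c : ι → Fin m, p c * hT α β σ s (pt b (dv ι m (y, c))) := by
    have := h1.prod
    refine this.congr fun y => ?_
    rw [tsum_fintype]
    exact Finset.sum_congr rfl fun c _ => by rw [hP]
  have h4 : ∀ y : ι → ℤ, ∑ c : ι → Fin m, p c * hT α β σ s (pt b (fun i => y i * m)) =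
      (∑ c, p c) * (Zeta.fac K m s * hT α β σ s (pt b y)) := by
    intro y
    rw [pt_mul, hT_smul hβ (NeZero.ne m), Finset.sum_mul]
  have h5 : Summable fun y : ι → ℤ => ∑ c : ι → Fin m, p c * hT α β σ s (pt b (fun i => y i * m)) := by
    simp only [h4]
    exact ((summable_hT b hN α β σ hs).mul_left _).mul_left _
  rw [DT]
  simp only [mul_sub, Finset.sum_sub_distrib]
  rw [h3.tsum_sub h5, ← h2]
  simp only [h4]
  rw [tsum_mul_left, tsum_mul_left]
  ring

/-- The lattice sum of one orthant: continuation and polynomial bound. -/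
theorem exists_latticeT (hL : StLIPH K) (hcard : Fintype.card ι = finrank ℚ K)
    (hN : ∀ a : ι → ℤ, a ≠ 0 → 1 ≤ mixedEmbedding.norm (pt b a)) :
    ∃ A : ℝ, 0 < A ∧ ∀ (α : TA K) (β : TB K), ∑ w, β w = 0 → ∀ σ : SG K,
      ∃ H : ℂ → ℂ, DifferentiableOn ℂ H {s | sg K < s.re} ∧
      (∀ s : ℂ, 1 < s.re → H s = (s - 1) * ∑' a : ι → ℤ, hT α β σ s (pt b a)) ∧
      ∀ s : ℂ, (1 + sg K) / 2 ≤ s.re → s.re ≤ 2 →
        ‖H s‖ ≤ A * sz α β ^ (finrank ℚ K + 1) * (1 + |s.im|) ^ (finrank ℚ K + 2) := by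
  obtain ⟨h0, h1, -⟩ := sg_bounds K
  obtain ⟨C, hC0, hC⟩ := DT_bound b hL hN
  obtain ⟨A, hA0, hA⟩ := cont_bound K (a := sg K) (b := (1 + sg K) / 2) (by linarith)
    (by linarith) (by linarith) (C := C * (∑ _c : ι → Fin (1 + 1), ‖(1 : ℂ)‖) + 1)
    (by positivity) (finrank ℚ K + 1)
  refine ⟨A, hA0, fun α β hβ σ => ?_⟩
  have hz1 : 1 ≤ sz α β := one_le_sz α β
  have hz0 : 0 < sz α β := by linarith
  set z : ℝ := sz α β ^ (finrank ℚ K + 1) with hz
  have hzp : 0 < z := by positivity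
  have hzc : (z : ℂ) ≠ 0 := Complex.ofReal_ne_zero.mpr hzp.ne'
  obtain ⟨H, hH1, hH2, hH3⟩ := exists_cont K h1 (fun k => DT b α β σ (k + 1) (fun _ => 1))
    (fun s => ∑' a : ι → ℤ, hT α β σ s (pt b a))
    (fun k => (hC α β hβ σ (k + 1) _).1)
    (fun k s hs => by
      have h2 := tsum_dilation (k + 1) (summable_hT b hN α β σ hs) (Zeta.fac K (k + 1) s)
        fun y => by rw [pt_mul, hT_smul hβ (Nat.succ_ne_zero k)]
      rw [hcard] at h2
      rw [qk, h2, DT]
      simp only [one_mul])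
  refine ⟨H, hH1, hH2, fun s hs1 hs2 => ?_⟩
  have h3 := hA (fun s => (z : ℂ)⁻¹ * DT b α β σ (1 + 1) (fun _ => 1) s)
    (fun s => (z : ℂ)⁻¹ * H s) (hH1.const_mul _) (fun s hs => by
      rw [mul_assoc, hH3 1 s hs]) (fun s hs => by
      rw [norm_mul, norm_inv, Complex.norm_real, Real.norm_eq_abs, abs_of_pos hzp]
      have h2 := (hC α β hβ σ (1 + 1) (fun _ => 1)).2 s hs
      have h4 : (0 : ℝ) ≤ (1 + ‖s‖) ^ (finrank ℚ K + 1) := by positivity
      rw [mul_pow, ← hz] at h2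
      rw [inv_mul_le_iff₀ hzp]
      refine h2.trans ?_
      have h5 : 0 ≤ z * (1 + ‖s‖) ^ (finrank ℚ K + 1) := by positivity
      calc _ ≤ (C * (∑ _c : ι → Fin (1 + 1), ‖(1 : ℂ)‖) + 1) *
            (z * (1 + ‖s‖) ^ (finrank ℚ K + 1)) := by linarith
        _ = _ := by ring) s hs1 hs2
  rw [norm_mul, norm_inv, Complex.norm_real, Real.norm_eq_abs, abs_of_pos hzp,
    inv_mul_le_iff₀ hzp] at h3
  refine h3.trans (le_of_eq ?_)
  ring

end Sum

end Pool.Agent.Lib.MP_bf61d2_nt.Artin.Ray.LATH49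

namespace Pool.Agent.Lib.MP_bf61d2_nt.Artin.Ray

open NumberField NumberField.mixedEmbedding NumberField.Units NumberField.InfinitePlace

open Module Filter Topology

open Pool.Agent.Lib.MP_bf61d2_nt.Zeta

open Pool.Agent.Lib.MP_bf61d2_nt.Artin.ZB69

open scoped Classical nonZeroDivisors

universe u

/-- **HECKE, module LATH.** -/
theorem stLATH_of (K : Type u) [Field K] [NumberField K] (hL : StLIPH K) : StLATH K := by
  intro ι _ b hcard hN
  obtain ⟨hsg0, hsg1, -⟩ := sg_bounds K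
  obtain ⟨C, hC0, hC⟩ := LATH49.DT_bound b hL hN
  obtain ⟨A₁, hA₁, hH⟩ := LATH49.exists_latticeT b hL hcard hN
  refine ⟨∑ _σ : SG K, (C * 3 ^ (finrank ℚ K + 2) + A₁) + 1, ?_, ?_⟩
  · have : 0 ≤ ∑ _σ : SG K, (C * 3 ^ (finrank ℚ K + 2) + A₁) :=
      Finset.sum_nonneg fun σ _ => by positivity
    linarith
  intro α β hβ m _ P hP1 hP2
  have hz1 : 1 ≤ sz α β := LATH49.one_le_sz α β
  have hz0 : 0 < sz α β := by linarith
  choose H₁ hH1 hH2 hH3 using hH α β hβ
  set p : SG K → (ι → Fin m) → ℂ := fun σ c => P σ (fun i => ((c i : ℕ) : ℤ)) with hp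
  have hper : ∀ σ (y : ι → ℤ) (c : ι → Fin m), P σ (dv ι m (y, c)) = p σ c := by
    intro σ y c
    rw [dv_apply, add_comm, hP2]
  have hPs : ∀ σ, ∑ c, ‖p σ c‖ ≤ (m : ℝ) ^ finrank ℚ K := by
    intro σ
    have h1 : ∑ c, ‖p σ c‖ ≤ ∑ _c : ι → Fin m, (1 : ℝ) :=
      Finset.sum_le_sum fun c _ => hP1 σ _
    refine h1.trans (le_of_eq ?_)
    rw [Finset.sum_const, nsmul_eq_mul, mul_one, Finset.card_univ, Fintype.card_fun,
      Fintype.card_fin, hcard]
    push_cast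
    ring
  have hfac : Differentiable ℂ fun s => Zeta.fac K m s := by
    unfold Zeta.fac
    fun_prop
  set T : SG K → ℂ → ℂ := fun σ s => (s - 1) * LATH49.DT b α β σ m (p σ) s +
    (∑ c, p σ c) * (Zeta.fac K m s * H₁ σ s) with hT'
  refine ⟨fun s => ∑ σ, T σ s, ?_, ?_, ?_⟩
  · refine DifferentiableOn.fun_sum fun σ _ => DifferentiableOn.add ?_ ?_
    · exact ((differentiable_id.sub_const 1).differentiableOn).mul (hC α β hβ σ m (p σ)).1
    · exact ((hfac.differentiableOn).mul (hH1 σ)).const_mul _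
  · intro s hs
    have h1 : ∀ σ, T σ s = (s - 1) * ∑' a : ι → ℤ, P σ a * hT α β σ s (pt b a) := by
      intro σ
      rw [LATH49.splitT b hN hβ σ m (p σ) (hP1 σ) (hper σ) hs, hT']
      simp only
      rw [hH2 σ s hs]
      ring
    simp only [h1]
    rw [← Finset.mul_sum,
      ← Summable.tsum_finsetSum fun σ _ => LATH49.summable_wt_hT b hN α β σ (hP1 σ) hs]
    congr 1
    refine tsum_congr fun a => ?_
    rw [Finset.sum_eq_single (sgn (pt b a))]
    · rw [hT, hS, if_pos rfl, mul_assoc]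
    · intro σ _ hσ
      rw [hT, hS, if_neg (fun h => hσ h.symm), mul_zero, mul_zero]
    · intro h
      exact absurd (Finset.mem_univ _) h
  · intro s hs1 hs2
    have hs0 : 0 ≤ s.re := by linarith
    have hsK : sg K < s.re := by linarith
    set X : ℝ := (sz α β * (1 + |s.im|)) ^ (finrank ℚ K + 2) with hXdef
    have hX : (0 : ℝ) ≤ X := by positivity
    have hM : (0 : ℝ) ≤ (m : ℝ) ^ finrank ℚ K := by positivity
    have e3 : 1 + ‖s‖ ≤ 3 * (1 + |s.im|) := by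
      have h1 := Complex.norm_le_abs_re_add_abs_im s
      have h2 : |s.re| ≤ 2 := abs_le.mpr ⟨by linarith, hs2⟩
      have h3 := abs_nonneg s.im
      linarith
    have e4 : ‖s - 1‖ ≤ sz α β * (1 + ‖s‖) := by
      have := norm_sub_le s 1
      rw [norm_one] at this
      nlinarith [norm_nonneg s]
    have e7 : sz α β ^ (finrank ℚ K + 1) * (1 + |s.im|) ^ (finrank ℚ K + 2) ≤ X := by
      rw [hXdef, mul_pow]
      exact mul_le_mul_of_nonneg_right (pow_le_pow_right₀ hz1 (by omega)) (by positivity)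
    have hbound : ∀ σ, ‖T σ s‖ ≤ (C * 3 ^ (finrank ℚ K + 2) + A₁) *
        ((m : ℝ) ^ finrank ℚ K * X) := by
      intro σ
      have hQ0 : 0 ≤ ∑ c, ‖p σ c‖ := Finset.sum_nonneg fun _ _ => norm_nonneg _
      have e5 : ‖(s - 1) * LATH49.DT b α β σ m (p σ) s‖ ≤ (C * 3 ^ (finrank ℚ K + 2)) *
          ((m : ℝ) ^ finrank ℚ K * X) := by
        rw [norm_mul]
        have h1 := mul_le_mul e4 ((hC α β hβ σ m (p σ)).2 s hsK) (norm_nonneg _) (by positivity)
        have h2 : (sz α β * (1 + ‖s‖)) ^ (finrank ℚ K + 2) ≤ 3 ^ (finrank ℚ K + 2) * X := by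
          rw [hXdef, ← mul_pow]
          refine pow_le_pow_left₀ (by positivity) ?_ _
          calc sz α β * (1 + ‖s‖) ≤ sz α β * (3 * (1 + |s.im|)) :=
                mul_le_mul_of_nonneg_left e3 hz0.le
            _ = _ := by ring
        calc _ ≤ (sz α β * (1 + ‖s‖)) * (C * (∑ c, ‖p σ c‖) *
              (sz α β * (1 + ‖s‖)) ^ (finrank ℚ K + 1)) := h1
          _ = C * (∑ c, ‖p σ c‖) * (sz α β * (1 + ‖s‖)) ^ (finrank ℚ K + 2) := by ring
          _ ≤ C * (m : ℝ) ^ finrank ℚ K * (3 ^ (finrank ℚ K + 2) * X) :=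
              mul_le_mul (mul_le_mul_of_nonneg_left (hPs σ) hC0.le) h2 (by positivity)
                (by positivity)
          _ = _ := by ring
      have e6 : ‖(∑ c, p σ c) * (Zeta.fac K m s * H₁ σ s)‖ ≤
          A₁ * ((m : ℝ) ^ finrank ℚ K * X) := by
        rw [norm_mul, norm_mul]
        have h1 : ‖H₁ σ s‖ ≤ A₁ * X := by
          refine (hH3 σ s hs1 hs2).trans ?_
          rw [mul_assoc]
          exact mul_le_mul_of_nonneg_left e7 hA₁.le
        calc _ ≤ (m : ℝ) ^ finrank ℚ K * (1 * (A₁ * X)) := by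
              refine mul_le_mul ((norm_sum_le _ _).trans (hPs σ)) ?_ (by positivity) hM
              exact mul_le_mul (ZM84.norm_fac_le hs0) h1 (norm_nonneg _) zero_le_one
          _ = _ := by ring
      calc ‖T σ s‖ ≤ _ := norm_add_le _ _
        _ ≤ _ := add_le_add e5 e6
        _ = _ := by ring
    refine (norm_sum_le _ _).trans ?_
    have h1 := Finset.sum_le_sum fun σ (_ : σ ∈ (Finset.univ : Finset (SG K))) => hbound σ
    rw [← Finset.sum_mul] at h1
    have h2 : 0 ≤ (m : ℝ) ^ finrank ℚ K * X := mul_nonneg hM hX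
    refine h1.trans ?_
    rw [mul_assoc]
    linarith

end Pool.Agent.Lib.MP_bf61d2_nt.Artin.Ray
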