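import Mathlib
import Pool.Agent.Lib.MP_bf61d2_nt.Trim.Artin.H.DefsH
import Pool.Agent.Lib.MP_bf61d2_nt.Trim.Artin.H.StmtsH
import Pool.Agent.Lib.MP_bf61d2_nt.Trim.Artin.R.DefsR
import Pool.Agent.Lib.MP_bf61d2_nt.Trim.Artin.R.LIP90
import Pool.Agent.Lib.MP_bf61d2_nt.Trim.Zeta.Cone
import Pool.Agent.Lib.MP_bf61d2_nt.Trim.Zeta.Dilation
import Pool.Agent.Lib.MP_bf61d2_nt.Trim.Zeta.Lattice
import Pool.Agent.Lib.MP_bf61d2_nt.Trim.Zeta.Lip

set_option autoImplicit false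

/-!
HECKE (MP_bf61d2_nt), modules LIPH and SHIFTH: the Lipschitz estimate on an orthant with the
character of an infinity type, and the shifts of the lattice sums.
-/

namespace NumberField
end NumberField

namespace Pool.Agent.Lib.MP_bf61d2_nt.Zeta
end Pool.Agent.Lib.MP_bf61d2_nt.Zeta

namespace Pool.Agent.Lib.MP_bf61d2_nt.Artin.Ray.L90
end Pool.Agent.Lib.MP_bf61d2_nt.Artin.Ray.L90

namespace Pool.Agent.Lib.MP_bf61d2_nt.Artin.Ray

open NumberField NumberField.mixedEmbedding NumberField.Units NumberField.InfinitePlace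

open IsDedekindDomain Module

open Pool.Agent.Lib.MP_bf61d2_nt.Zeta

open scoped Classical nonZeroDivisors

universe u

namespace L90

lemma norm_prod_sub_le {τ : Type*} (S : Finset τ) (f g : τ → ℂ) (hf : ∀ i, ‖f i‖ ≤ 1)
    (hg : ∀ i, ‖g i‖ ≤ 1) : ‖∏ i ∈ S, f i - ∏ i ∈ S, g i‖ ≤ ∑ i ∈ S, ‖f i - g i‖ := by
  induction S using Finset.induction_on with
  | empty => simp
  | insert j S hj ih =>
    rw [Finset.prod_insert hj, Finset.prod_insert hj, Finset.sum_insert hj]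
    have hF : ‖∏ i ∈ S, f i‖ ≤ 1 := by
      rw [norm_prod]
      exact Finset.prod_le_one (fun _ _ => norm_nonneg _) fun i _ => hf i
    have e : f j * ∏ i ∈ S, f i - g j * ∏ i ∈ S, g i =
        (f j - g j) * ∏ i ∈ S, f i + g j * (∏ i ∈ S, f i - ∏ i ∈ S, g i) := by ring
    rw [e]
    refine (norm_add_le _ _).trans ?_
    rw [norm_mul, norm_mul]
    refine add_le_add (mul_le_of_le_one_right (norm_nonneg _) hF) ?_
    exact (mul_le_of_le_one_left (norm_nonneg _) (hg j)).trans ih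

lemma pow_sub_le {z w : ℂ} (hz : ‖z‖ = 1) (hw : ‖w‖ = 1) (n : ℕ) :
    ‖z ^ n - w ^ n‖ ≤ n * ‖z - w‖ := by
  induction n with
  | zero => simp
  | succ n ih =>
    have e : z ^ (n + 1) - w ^ (n + 1) = z ^ n * (z - w) + (z ^ n - w ^ n) * w := by ring
    rw [e]
    refine (norm_add_le _ _).trans ?_
    rw [norm_mul, norm_mul, norm_pow, hz, one_pow, one_mul, hw, mul_one]
    push_cast
    linarith

lemma zpow_sub_le {z w : ℂ} (hz : ‖z‖ = 1) (hw : ‖w‖ = 1) (k : ℤ) :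
    ‖z ^ k - w ^ k‖ ≤ |(k : ℝ)| * ‖z - w‖ := by
  have hz0 : z ≠ 0 := by
    rintro rfl
    rw [norm_zero] at hz
    exact zero_ne_one hz
  have hw0 : w ≠ 0 := by
    rintro rfl
    rw [norm_zero] at hw
    exact zero_ne_one hw
  obtain ⟨n, rfl | rfl⟩ := k.eq_nat_or_neg
  · rw [zpow_natCast, zpow_natCast]
    have := pow_sub_le hz hw n
    simpa using this
  · rw [zpow_neg, zpow_neg, zpow_natCast, zpow_natCast]
    have h1 := pow_sub_le hz hw n
    have e : (z ^ n)⁻¹ - (w ^ n)⁻¹ = -((z ^ n - w ^ n) / (z ^ n * w ^ n)) := by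
      field_simp
      ring
    rw [e, norm_neg, norm_div, norm_mul, norm_pow, norm_pow, hz, hw, one_pow, one_mul, div_one]
    simpa using h1

lemma unit_sub_le {z w : ℂ} (hz : z ≠ 0) (hw : w ≠ 0) :
    ‖z / (‖z‖ : ℂ) - w / (‖w‖ : ℂ)‖ ≤ 2 * (‖z - w‖ / ‖z‖) := by
  have hz' : (0 : ℝ) < ‖z‖ := norm_pos_iff.mpr hz
  have hw' : (0 : ℝ) < ‖w‖ := norm_pos_iff.mpr hw
  have hzc : ((‖z‖ : ℝ) : ℂ) ≠ 0 := Complex.ofReal_ne_zero.mpr hz'.ne'
  have hwc : ((‖w‖ : ℝ) : ℂ) ≠ 0 := Complex.ofReal_ne_zero.mpr hw'.ne'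
  have e : z / (‖z‖ : ℂ) - w / (‖w‖ : ℂ) = (z - w) / (‖z‖ : ℂ) +
      (w / (‖w‖ : ℂ)) * (((‖w‖ - ‖z‖ : ℝ) : ℂ) / (‖z‖ : ℂ)) := by
    push_cast
    field_simp
    ring
  rw [e]
  refine (norm_add_le _ _).trans ?_
  rw [norm_div, norm_mul, norm_div, norm_div, Complex.norm_real, Complex.norm_real,
    Complex.norm_real, Real.norm_eq_abs, Real.norm_eq_abs, Real.norm_eq_abs,
    abs_of_pos hz', abs_of_pos hw', div_self hw'.ne', one_mul]
  have h1 : |‖w‖ - ‖z‖| ≤ ‖z - w‖ := by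
    rw [abs_sub_comm]
    exact abs_norm_sub_norm_le z w
  have h2 := div_le_div_of_nonneg_right h1 hz'.le
  linarith

lemma norm_exp_I (t : ℝ) : ‖Complex.exp ((t : ℂ) * Complex.I)‖ = 1 :=
  Complex.norm_exp_ofReal_mul_I t

lemma exp_sub_le (t t' : ℝ) :
    ‖Complex.exp ((t : ℂ) * Complex.I) - Complex.exp ((t' : ℂ) * Complex.I)‖ ≤ |t - t'| := by
  have e : Complex.exp ((t : ℂ) * Complex.I) - Complex.exp ((t' : ℂ) * Complex.I) =
      Complex.exp ((t' : ℂ) * Complex.I) * (Complex.exp (Complex.I * ((t - t' : ℝ) : ℂ)) - 1) := by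
    rw [mul_sub, ← Complex.exp_add, mul_one]
    congr 2
    push_cast
    ring
  rw [e, norm_mul, norm_exp_I, one_mul]
  exact Real.norm_exp_I_mul_ofReal_sub_one_le

variable {K : Type*} [Field K] [NumberField K]

lemma norm_unit_le (z : ℂ) (k : ℤ) : ‖(z / (‖z‖ : ℂ)) ^ k‖ ≤ 1 := by
  by_cases hz : z = 0
  · rw [hz, zero_div]
    by_cases hk : k = 0
    · rw [hk, zpow_zero, norm_one]
    · rw [zero_zpow _ hk, norm_zero]
      norm_num
  · have hz' : (0 : ℝ) < ‖z‖ := norm_pos_iff.mpr hz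
    rw [norm_zpow, norm_div, Complex.norm_real, Real.norm_eq_abs, abs_of_pos hz',
      div_self hz'.ne', one_zpow]

lemma norm_lamX_le (a : TA K) (b : TB K) (x : mixedSpace K) : ‖lamX a b x‖ ≤ 1 := by
  unfold lamX
  rw [norm_mul, norm_exp_I, mul_one, norm_prod]
  exact Finset.prod_le_one (fun _ _ => norm_nonneg _) fun w _ => norm_unit_le _ _

lemma one_le_sz (a : TA K) (b : TB K) : 1 ≤ sz a b := by
  unfold sz
  have h1 : 0 ≤ ∑ w : {w : InfinitePlace K // w.IsComplex}, |(a w : ℝ)| :=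
    Finset.sum_nonneg fun _ _ => abs_nonneg _
  have h2 : 0 ≤ ∑ w : InfinitePlace K, |b w| := Finset.sum_nonneg fun _ _ => abs_nonneg _
  linarith

/-- the character of the infinity type is Lipschitz away from the coordinate hyperplanes -/
lemma lamX_sub_le {a : TA K} {b : TB K} {x y : mixedSpace K} {c m : ℝ} (hm : 0 < m)
    (hxy : ‖x - y‖ ≤ c) (hx : ∀ w, m ≤ normAtPlace w x) (hy : ∀ w, m ≤ normAtPlace w y) :
    ‖lamX a b y - lamX a b x‖ ≤ sz a b * (2 * (c / m)) := by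
  have hc : 0 ≤ c := (norm_nonneg _).trans hxy
  have hcm : 0 ≤ c / m := div_nonneg hc hm.le
  set f : {w : InfinitePlace K // w.IsComplex} → ℂ :=
    fun w => (y.2 w / (‖y.2 w‖ : ℂ)) ^ (a w) with hf
  set g : {w : InfinitePlace K // w.IsComplex} → ℂ :=
    fun w => (x.2 w / (‖x.2 w‖ : ℂ)) ^ (a w) with hg
  set ty : ℝ := ∑ w : InfinitePlace K, b w * Real.log (normAtPlace w y) with hty
  set tx : ℝ := ∑ w : InfinitePlace K, b w * Real.log (normAtPlace w x) with htx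
  have h1 : ‖∏ w, f w - ∏ w, g w‖ ≤ ∑ w : {w : InfinitePlace K // w.IsComplex},
      |(a w : ℝ)| * (2 * (c / m)) := by
    refine (norm_prod_sub_le _ f g (fun w => norm_unit_le _ _) (fun w => norm_unit_le _ _)).trans ?_
    refine Finset.sum_le_sum fun w _ => ?_
    have hxw : m ≤ ‖x.2 w‖ := by
      have := hx w.1
      rwa [normAtPlace_apply_of_isComplex w.2] at this
    have hyw : m ≤ ‖y.2 w‖ := by
      have := hy w.1
      rwa [normAtPlace_apply_of_isComplex w.2] at this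
    have hx0 : x.2 w ≠ 0 := norm_pos_iff.mp (hm.trans_le hxw)
    have hy0 : y.2 w ≠ 0 := norm_pos_iff.mp (hm.trans_le hyw)
    have hu : ∀ z : ℂ, z ≠ 0 → ‖z / (‖z‖ : ℂ)‖ = 1 := by
      intro z hz
      have hz' : (0 : ℝ) < ‖z‖ := norm_pos_iff.mpr hz
      rw [norm_div, Complex.norm_real, Real.norm_eq_abs, abs_of_pos hz', div_self hz'.ne']
    refine (zpow_sub_le (hu _ hy0) (hu _ hx0) (a w)).trans ?_
    refine mul_le_mul_of_nonneg_left ?_ (abs_nonneg _)
    refine (unit_sub_le hy0 hx0).trans ?_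
    have h2 : ‖y.2 w - x.2 w‖ ≤ c := by
      have h3 : ‖(x - y).2‖ ≤ ‖x - y‖ := norm_snd_le _
      have h4 : ‖(x - y).2 w‖ ≤ ‖(x - y).2‖ := norm_le_pi_norm _ w
      have h5 : (x - y).2 w = x.2 w - y.2 w := rfl
      rw [h5, norm_sub_rev] at h4
      linarith
    have h3 : ‖y.2 w - x.2 w‖ / ‖y.2 w‖ ≤ c / m := div_le_div₀ hc h2 hm hyw
    linarith
  have h2 : |ty - tx| ≤ ∑ w : InfinitePlace K, |b w| * (c / m) := by
    rw [hty, htx, ← Finset.sum_sub_distrib]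
    refine (Finset.abs_sum_le_sum_abs _ _).trans ?_
    refine Finset.sum_le_sum fun w _ => ?_
    rw [← mul_sub, abs_mul]
    refine mul_le_mul_of_nonneg_left ?_ (abs_nonneg _)
    refine (abs_log_sub_le hm (hy w) (hx w)).trans ?_
    refine div_le_div_of_nonneg_right ?_ hm.le
    rw [abs_sub_comm]
    exact (abs_normAtPlace_sub_le w x y).trans hxy
  have hF : ‖∏ w, f w‖ ≤ 1 := by
    rw [norm_prod]
    exact Finset.prod_le_one (fun _ _ => norm_nonneg _) fun w _ => norm_unit_le _ _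
  have e : lamX a b y - lamX a b x = (∏ w, f w - ∏ w, g w) * Complex.exp ((tx : ℂ) * Complex.I) +
      (∏ w, f w) * (Complex.exp ((ty : ℂ) * Complex.I) - Complex.exp ((tx : ℂ) * Complex.I)) := by
    unfold lamX
    rw [← hty, ← htx]
    ring
  rw [e]
  refine (norm_add_le _ _).trans ?_
  rw [norm_mul, norm_mul, norm_exp_I, mul_one]
  have h3 : ‖∏ w, f w‖ * ‖Complex.exp ((ty : ℂ) * Complex.I) - Complex.exp ((tx : ℂ) * Complex.I)‖ ≤
      ∑ w : InfinitePlace K, |b w| * (c / m) :=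
    (mul_le_of_le_one_left (norm_nonneg _) hF).trans ((exp_sub_le ty tx).trans h2)
  refine (add_le_add h1 h3).trans ?_
  rw [← Finset.sum_mul, ← Finset.sum_mul]
  have h4 : 0 ≤ ∑ w : InfinitePlace K, |b w| := Finset.sum_nonneg fun _ _ => abs_nonneg _
  unfold sz
  nlinarith [mul_nonneg h4 hcm]

lemma norm_hh_le {σ₀ m : ℝ} (hσ : 0 < σ₀) (hm : 1 ≤ m) {s : ℂ} (hs : σ₀ ≤ s.re)
    {z : mixedSpace K} (hz : ∀ w, m ≤ normAtPlace w z) :
    ‖hh s z‖ ≤ m ^ (-(finrank ℚ K * σ₀)) := by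
  have hm0 : 0 < m := by linarith
  have h5 := pow_le_norm hm0.le hz
  have h6 : (1 : ℝ) ≤ m ^ finrank ℚ K := one_le_pow₀ hm
  have h7 : 0 < mixedEmbedding.norm z := by linarith
  rw [hh, if_neg h7.ne', norm_mul, Complex.norm_real, Real.norm_eq_abs,
    abs_of_nonneg (Phi_nonneg z)]
  have h8 : (-(s * (Real.log (mixedEmbedding.norm z) : ℂ))).re =
      -(s.re * Real.log (mixedEmbedding.norm z)) := by
    rw [Complex.neg_re, Complex.re_mul_ofReal]
  have h12 : ‖Complex.exp (-(s * (Real.log (mixedEmbedding.norm z) : ℂ)))‖ ≤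
      m ^ (-(finrank ℚ K * σ₀)) := by
    rw [Complex.norm_exp, h8, Real.rpow_def_of_pos hm0]
    apply Real.exp_le_exp.mpr
    have h9 : (finrank ℚ K : ℝ) * Real.log m ≤ Real.log (mixedEmbedding.norm z) := by
      have := Real.log_le_log (by positivity) h5
      rwa [Real.log_pow] at this
    have h10 : 0 ≤ Real.log m := Real.log_nonneg hm
    have h11 : σ₀ * (finrank ℚ K * Real.log m) ≤ s.re * Real.log (mixedEmbedding.norm z) :=
      mul_le_mul hs h9 (by positivity) (by linarith)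
    linarith
  exact (mul_le_of_le_one_left (norm_nonneg _) (Phi_le_one z)).trans h12

end L90

open L90

/-- **HECKE, module LIPH.** -/
theorem stLIPH_of (K : Type u) [Field K] [NumberField K] : StLIPH K := by
  intro c σ₀ hc hσ
  obtain ⟨κ, hκ0, hκ1, hκ⟩ := exists_kappa K
  obtain ⟨C₁, C₂, hC₁, hC₂, hlip⟩ := stLIP_of K c σ₀ hc hσ
  set e : ℝ := finrank ℚ K * σ₀ + 1 with he
  refine ⟨C₁ + 2 * c * (κ / 4) ^ (-e), C₂ + 8 * c / κ + 4 / κ, by positivity, by positivity, ?_⟩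
  intro R hR x y hx hy hxy hX a b σ s hs1 hs2
  have hR0 : 0 < R := by linarith
  have p1 : 0 < 8 * c / κ := by positivity
  have p2 : 0 < 4 / κ := by positivity
  have hX2 : C₂ * R ≤ ‖x‖ := by nlinarith
  have hX3 : 8 * c / κ ≤ ‖x‖ := by nlinarith
  have hX5 : 4 / κ ≤ ‖x‖ := by nlinarith
  have hXpos : 0 < ‖x‖ := lt_of_lt_of_le p1 hX3
  have hX4 : 8 * c ≤ κ * ‖x‖ := by
    rw [div_le_iff₀ hκ0] at hX3
    linarith
  have hsz := one_le_sz a b
  have hs3 : ‖s‖ ≤ R := by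
    have := norm_nonneg s
    nlinarith
  have hszR : sz a b ≤ R := by
    have := norm_nonneg s
    nlinarith
  have hpow : 0 < ‖x‖ ^ (-e) := Real.rpow_pos_of_pos hXpos _
  have hpos : 0 ≤ (C₁ + 2 * c * (κ / 4) ^ (-e)) * R * ‖x‖ ^ (-e) := by positivity
  by_cases hP : Phi x ≠ 0 ∨ Phi y ≠ 0
  · have hcmp := comparable hκ0 hκ1 hκ (x := x) (y := y) rfl hx hy hxy hX4 hP
    set m : ℝ := κ / 4 * ‖x‖ with hm
    have hm0 : 0 < m := by positivity
    have hm1 : 1 ≤ m := by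
      rw [div_le_iff₀ hκ0] at hX5
      rw [hm]
      linarith
    have h1 := hlip R hR x y hx hy hxy hX2 σ s hs1 hs3
    have h2 : ‖hS σ s x‖ ≤ m ^ (-(finrank ℚ K * σ₀)) :=
      (norm_hS_le _ _ _).trans (norm_hh_le hσ hm1 hs1 fun w => (hcmp w).1)
    have h3 := lamX_sub_le (a := a) (b := b) hm0 hxy (fun w => (hcmp w).1) fun w => (hcmp w).2
    have e1 : hT a b σ s y - hT a b σ s x = lamX a b y * (hS σ s y - hS σ s x) +
        (lamX a b y - lamX a b x) * hS σ s x := by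
      unfold hT
      ring
    rw [e1]
    refine (norm_add_le _ _).trans ?_
    rw [norm_mul, norm_mul]
    have t1 : ‖lamX a b y‖ * ‖hS σ s y - hS σ s x‖ ≤ C₁ * R * ‖x‖ ^ (-e) :=
      (mul_le_of_le_one_left (norm_nonneg _) (norm_lamX_le _ _ _)).trans h1
    have t2 : ‖lamX a b y - lamX a b x‖ * ‖hS σ s x‖ ≤
        (R * (2 * (c / m))) * m ^ (-(finrank ℚ K * σ₀)) := by
      refine mul_le_mul (h3.trans ?_) h2 (norm_nonneg _) (by positivity)
      exact mul_le_mul_of_nonneg_right hszR (by positivity)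
    have t3 : (R * (2 * (c / m))) * m ^ (-(finrank ℚ K * σ₀)) =
        2 * c * (κ / 4) ^ (-e) * R * ‖x‖ ^ (-e) := by
      have e2 : m ^ (-e) = m⁻¹ * m ^ (-(finrank ℚ K * σ₀)) := by
        rw [he, neg_add, Real.rpow_add hm0, Real.rpow_neg_one]
        ring
      have e3 : m ^ (-e) = (κ / 4) ^ (-e) * ‖x‖ ^ (-e) := by
        rw [hm, Real.mul_rpow (by positivity) hXpos.le]
      calc (R * (2 * (c / m))) * m ^ (-(finrank ℚ K * σ₀)) =
          2 * c * R * (m⁻¹ * m ^ (-(finrank ℚ K * σ₀))) := by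
            rw [div_eq_mul_inv]; ring
        _ = 2 * c * R * ((κ / 4) ^ (-e) * ‖x‖ ^ (-e)) := by rw [← e2, e3]
        _ = _ := by ring
    rw [t3] at t2
    calc _ ≤ C₁ * R * ‖x‖ ^ (-e) + 2 * c * (κ / 4) ^ (-e) * R * ‖x‖ ^ (-e) := add_le_add t1 t2
      _ = _ := by ring
  · push Not at hP
    have h1 : hh s x = 0 := by
      rw [hh, if_neg hx, hP.1, Complex.ofReal_zero, zero_mul]
    have h2 : hh s y = 0 := by
      rw [hh, if_neg hy, hP.2, Complex.ofReal_zero, zero_mul]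
    have h3 : hT a b σ s x = 0 := by
      unfold hT hS
      rw [h1, ite_self, mul_zero]
    have h4 : hT a b σ s y = 0 := by
      unfold hT hS
      rw [h2, ite_self, mul_zero]
    rw [h3, h4, sub_zero, norm_zero]
    exact hpos

/-- **HECKE, module SHIFTH.** -/
theorem stSHIFTH_of (K : Type u) [Field K] [NumberField K] (hL : StLIPH K) : StSHIFTH K := by
  intro ι _ b hN T α' β'
  have hT0 : (0 : ℝ) ≤ ‖pt b T‖ := norm_nonneg _
  obtain ⟨C₁, C₂, hC₁, hC₂, hlip⟩ := hL (‖pt b T‖ + 1) 1 (by linarith) one_pos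
  set e : ℝ := finrank ℚ K * 1 + 1 with he
  have hn : (1 : ℝ) ≤ finrank ℚ K := by exact_mod_cast finrank_pos
  have he0 : 0 < e := by rw [he]; linarith
  have hs1 := summable_pt b (ρ := e) (by rw [mixedEmbedding.finrank, he]; linarith)
  have hsz := one_le_sz α' β'
  set R : ℝ := sz α' β' * 3 with hR
  have hR1 : 1 ≤ R := by rw [hR]; linarith
  have hR0 : 0 < R := by linarith
  set F : (ι → ℤ) → ℝ := fun a => (C₁ * R + 2 * (C₂ * R) ^ e) * ‖pt b a‖ ^ (-e) +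
    ((if a = 0 then (2 : ℝ) else 0) + if a = -T then (2 : ℝ) else 0) with hF
  have hF1 : Summable F := by
    refine (hs1.mul_left _).add (Summable.add ?_ ?_)
    · exact summable_of_ne_finset_zero (s := {0}) fun y hy => by
        rw [if_neg (by simpa using hy)]
    · exact summable_of_ne_finset_zero (s := {-T}) fun y hy => by
        rw [if_neg (by simpa using hy)]
  refine ⟨∑' a, F a, fun g hg σ x hx0 hx1 => ?_⟩
  refine tsum_of_norm_bounded hF1.hasSum (fun a => ?_)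
  have hre : (((1 + x : ℝ) : ℂ)).re = 1 + x := Complex.ofReal_re _
  have hTS : ∀ z : mixedSpace K, ‖hT α' β' σ ((1 + x : ℝ) : ℂ) z‖ ≤
      ‖hS σ ((1 + x : ℝ) : ℂ) z‖ := by
    intro z
    unfold hT
    rw [norm_mul]
    exact mul_le_of_le_one_left (norm_nonneg _) (norm_lamX_le _ _ _)
  have hone : ∀ a : ι → ℤ, ‖hT α' β' σ ((1 + x : ℝ) : ℂ) (pt b a)‖ ≤ 1 := by
    intro a
    refine (hTS _).trans ?_
    by_cases ha : a = 0
    · rw [ha, pt_zero, hS_zero, norm_zero]; norm_num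
    · exact (norm_hS_le _ _ _).trans (norm_hh_le_one (by rw [hre]; linarith) (hN a ha))
  have htwo : ‖hT α' β' σ ((1 + x : ℝ) : ℂ) (pt b (a + T)) -
      hT α' β' σ ((1 + x : ℝ) : ℂ) (pt b a)‖ ≤ 2 := by
    refine (norm_sub_le _ _).trans ?_
    linarith [hone a, hone (a + T)]
  have hmul : ‖g a * (hT α' β' σ ((1 + x : ℝ) : ℂ) (pt b (a + T)) -
      hT α' β' σ ((1 + x : ℝ) : ℂ) (pt b a))‖ ≤
      ‖hT α' β' σ ((1 + x : ℝ) : ℂ) (pt b (a + T)) - hT α' β' σ ((1 + x : ℝ) : ℂ) (pt b a)‖ := by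
    rw [norm_mul]
    exact mul_le_of_le_one_left (norm_nonneg _) (hg a)
  refine hmul.trans ?_
  have hmain : 0 ≤ (C₁ * R + 2 * (C₂ * R) ^ e) * ‖pt b a‖ ^ (-e) := by positivity
  have hi1 : (0 : ℝ) ≤ if a = 0 then (2 : ℝ) else 0 := by split_ifs <;> norm_num
  have hi2 : (0 : ℝ) ≤ if a = -T then (2 : ℝ) else 0 := by split_ifs <;> norm_num
  simp only [hF]
  by_cases ha : a = 0
  · rw [if_pos ha]
    linarith
  by_cases haT : a = -T
  · rw [if_pos haT]
    linarith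
  rw [if_neg ha, if_neg haT, add_zero, add_zero]
  have haT' : a + T ≠ 0 := fun h => haT (eq_neg_of_add_eq_zero_left h)
  have hNa := hN a ha
  have hNT := hN _ haT'
  have hy0 : 0 < ‖pt b a‖ := norm_pos_iff.mpr (pt_ne_zero b ha)
  have hpow : (0 : ℝ) < ‖pt b a‖ ^ (-e) := Real.rpow_pos_of_pos hy0 _
  rcases le_or_gt (C₂ * R) ‖pt b a‖ with h | h
  · have h1 := hlip R hR1 (pt b a) (pt b (a + T)) (by linarith) (by linarith) (by
      rw [pt_add, sub_add_cancel_left, norm_neg]; linarith) h α' β' σ ((1 + x : ℝ) : ℂ)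
        (by rw [hre]; linarith) (by
          rw [Complex.norm_real, Real.norm_eq_abs, abs_of_nonneg (by linarith), hR]
          exact mul_le_mul_of_nonneg_left (by linarith) (by linarith))
    refine h1.trans ?_
    refine mul_le_mul_of_nonneg_right ?_ hpow.le
    have : (0 : ℝ) < (C₂ * R) ^ e := by positivity
    linarith
  · have h3 : 1 ≤ (C₂ * R) ^ e * ‖pt b a‖ ^ (-e) := by
      have h4 : ‖pt b a‖ ^ e ≤ (C₂ * R) ^ e := Real.rpow_le_rpow hy0.le h.le he0.le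
      calc (1 : ℝ) = ‖pt b a‖ ^ e * ‖pt b a‖ ^ (-e) := by
            rw [← Real.rpow_add hy0, add_neg_cancel, Real.rpow_zero]
        _ ≤ _ := mul_le_mul_of_nonneg_right h4 hpow.le
    have h5 : 0 ≤ C₁ * R * ‖pt b a‖ ^ (-e) := by positivity
    calc _ ≤ (2 : ℝ) := htwo
      _ ≤ 2 * ((C₂ * R) ^ e * ‖pt b a‖ ^ (-e)) := by linarith
      _ ≤ C₁ * R * ‖pt b a‖ ^ (-e) + 2 * ((C₂ * R) ^ e * ‖pt b a‖ ^ (-e)) := by linarith
      _ = _ := by ring

end Pool.Agent.Lib.MP_bf61d2_nt.Artin.Ray
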