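import Mathlib
import Pool.Agent.Lib.MP_bf61d2_nt.Trim.Artin.H.DefsH

set_option autoImplicit false

/-!
HECKE (MP_bf61d2_nt), module MAINH: edge repulsion for the twists of the quadratic twists `E_d` by
all unitary Hecke characters.
-/

namespace NumberField
end NumberField

namespace Pool.Agent.Lib.MP_bf61d2_nt.Artin.Ray

open NumberField IsDedekindDomain

open scoped Classical

universe u

variable {K : Type u} [Field K] [NumberField K]

section Iff

variable {d d' : ℕ} {𝔪₁ 𝔪 𝔪' : Ideal (𝓞 K)} {ψ₁ ψ ψ' η η' : Ideal (𝓞 K) →*₀ ℂ}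

end Iff

lemma sz_le {a : TA K} {b : TB K} {Q : ℝ} (hQ : 1 ≤ Q) (ha : ∀ w, |(a w : ℝ)| ≤ Q)
    (hb : ∀ w, |b w| ≤ Q) :
    sz a b ≤ (2 * Fintype.card (InfinitePlace K) + 1 : ℕ) * Q := by
  have h1 : ∑ w : {w : InfinitePlace K // w.IsComplex}, |(a w : ℝ)| ≤
      (Fintype.card (InfinitePlace K) : ℝ) * Q := by
    refine (Finset.sum_le_card_nsmul _ _ _ fun w _ => ha w).trans ?_
    rw [nsmul_eq_mul, Finset.card_univ]
    refine mul_le_mul_of_nonneg_right ?_ (by linarith)
    exact_mod_cast Fintype.card_subtype_le _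
  have h2 : ∑ w : InfinitePlace K, |b w| ≤ (Fintype.card (InfinitePlace K) : ℝ) * Q := by
    refine (Finset.sum_le_card_nsmul _ _ _ fun w _ => hb w).trans ?_
    rw [nsmul_eq_mul, Finset.card_univ]
  rw [sz]
  push_cast
  linarith

end Pool.Agent.Lib.MP_bf61d2_nt.Artin.Ray
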