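import Mathlib
import Pool.Agent.Lib.MP_bf61d2_nt.Trim.Artin.H.DefsH
import Pool.Agent.Lib.MP_bf61d2_nt.Trim.Artin.H.INVH39
import Pool.Agent.Lib.MP_bf61d2_nt.Trim.Artin.H.StmtsH
import Pool.Agent.Lib.MP_bf61d2_nt.Trim.Artin.R.DefsR
import Pool.Agent.Lib.MP_bf61d2_nt.Trim.Artin.R.PER39
import Pool.Agent.Lib.MP_bf61d2_nt.Trim.Zeta.Lattice
import Pool.Agent.Lib.MP_bf61d2_nt.Trim.Zeta.Unfold

set_option autoImplicit false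

/-!
HECKE (MP_bf61d2_nt), module PERH: the weights of the lattice sums are periodic.
-/

namespace NumberField
end NumberField

namespace Pool.Agent.Lib.MP_bf61d2_nt.Zeta
end Pool.Agent.Lib.MP_bf61d2_nt.Zeta

namespace Pool.Agent.Lib.MP_bf61d2_nt.Artin.Ray

open NumberField NumberField.mixedEmbedding NumberField.Units NumberField.InfinitePlace

open IsDedekindDomain Module

open Pool.Agent.Lib.MP_bf61d2_nt.Zeta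

open scoped Classical nonZeroDivisors

universe u

namespace PerH39

variable {K : Type u} [Field K] [NumberField K]

lemma rep_eq {𝔪 : Ideal (𝓞 K)} (h𝔪 : 𝔪 ≠ ⊥) {ta : TA K} {tb : TB K} {ψ : Ideal (𝓞 K) →*₀ ℂ}
    (h : IsHe 𝔪 ta tb ψ) {J : Ideal (𝓞 K)} {ι : Type u} [Fintype ι]
    {b : Basis ι ℝ (mixedSpace K)} {σ : SG K} {a : ι → ℤ} {α β : 𝓞 K} {I I' : Ideal (𝓞 K)}
    (h1 : Per39.Rep 𝔪 J b σ a α I) (h2 : Per39.Rep 𝔪 J b σ a β I') :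
    ψ I / lamX ta tb (mixedEmbedding K (α : K)) =
      ψ I' / lamX ta tb (mixedEmbedding K (β : K)) := by
  obtain ⟨hα, hI, hsα, τ, hτ, hτ'⟩ := h1
  obtain ⟨hβ, hI', hsβ, ρ, hρ, hρ'⟩ := h2
  have h3 : mixedEmbedding K ((α - β : 𝓞 K) : K) = mixedEmbedding K ((τ - ρ : 𝓞 K) : K) := by
    push_cast
    rw [map_sub, map_sub, hτ', hρ']
    abel
  have h4 : α - β = τ - ρ := RingOfIntegers.ext (mixedEmbedding_injective K h3)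
  have h5 : α - β ∈ 𝔪 * J := by
    rw [h4]
    exact sub_mem hτ hρ
  have h6 := stINVH_39 K 𝔪 h𝔪 ta tb ψ h J I I' α β hα hβ h5 (Per39.sgn_iff (hsα.trans hsβ.symm)) hI hI'
  have hK : ∀ x : 𝓞 K, x ≠ 0 → (x : K) ≠ 0 := fun x hx h => hx (RingOfIntegers.coe_eq_zero_iff.mp h)
  rw [div_eq_div_iff (InvH39.lam_ne_zero ta tb (hK α hα)) (InvH39.lam_ne_zero ta tb (hK β hβ))]
  exact h6

/-- the weight -/
noncomputable def P (𝔪 : Ideal (𝓞 K)) (ta : TA K) (tb : TB K) (ψ : Ideal (𝓞 K) →*₀ ℂ)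
    (J : Ideal (𝓞 K)) {ι : Type u} [Fintype ι] (b : Basis ι ℝ (mixedSpace K)) (σ : SG K)
    (a : ι → ℤ) : ℂ :=
  if h : ∃ z : ℂ, ∃ (α : 𝓞 K) (I : Ideal (𝓞 K)), Per39.Rep 𝔪 J b σ a α I ∧
    z = ψ I / lamX ta tb (mixedEmbedding K (α : K)) then h.choose else 0

lemma P_eq {𝔪 : Ideal (𝓞 K)} (h𝔪 : 𝔪 ≠ ⊥) {ta : TA K} {tb : TB K} {ψ : Ideal (𝓞 K) →*₀ ℂ}
    (h : IsHe 𝔪 ta tb ψ) {J : Ideal (𝓞 K)} {ι : Type u} [Fintype ι]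
    {b : Basis ι ℝ (mixedSpace K)} {σ : SG K} {a : ι → ℤ} {α : 𝓞 K} {I : Ideal (𝓞 K)}
    (h1 : Per39.Rep 𝔪 J b σ a α I) :
    P 𝔪 ta tb ψ J b σ a = ψ I / lamX ta tb (mixedEmbedding K (α : K)) := by
  have h2 : ∃ z : ℂ, ∃ (α : 𝓞 K) (I : Ideal (𝓞 K)), Per39.Rep 𝔪 J b σ a α I ∧
    z = ψ I / lamX ta tb (mixedEmbedding K (α : K)) := ⟨_, α, I, h1, rfl⟩
  unfold P
  rw [dif_pos h2]
  obtain ⟨β, I', hβ, hz⟩ := h2.choose_spec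
  rw [hz]
  exact rep_eq h𝔪 h hβ h1

lemma P_zero {𝔪 : Ideal (𝓞 K)} {ta : TA K} {tb : TB K} {ψ : Ideal (𝓞 K) →*₀ ℂ}
    {J : Ideal (𝓞 K)} {ι : Type u} [Fintype ι] {b : Basis ι ℝ (mixedSpace K)} {σ : SG K}
    {a : ι → ℤ} (h1 : ¬ ∃ (α : 𝓞 K) (I : Ideal (𝓞 K)), Per39.Rep 𝔪 J b σ a α I) :
    P 𝔪 ta tb ψ J b σ a = 0 := by
  unfold P
  rw [dif_neg]
  rintro ⟨z, α, I, h2, -⟩
  exact h1 ⟨α, I, h2⟩

end PerH39

variable (K : Type u) [Field K] [NumberField K]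

/-- module PERH -/
theorem stPERH_39 (hB : StBASH K) : StPERH K := by
  intro 𝔪 h𝔪 ta tb ψ h J ι _ b hb
  have hK : ∀ x : 𝓞 K, x ≠ 0 → (x : K) ≠ 0 := fun x hx h => hx (RingOfIntegers.coe_eq_zero_iff.mp h)
  refine ⟨PerH39.P 𝔪 ta tb ψ (J : Ideal (𝓞 K)) b, ?_, ?_, ?_⟩
  · intro σ a
    by_cases h1 : ∃ (α : 𝓞 K) (I : Ideal (𝓞 K)), Per39.Rep 𝔪 (J : Ideal (𝓞 K)) b σ a α I
    · obtain ⟨α, I, hα⟩ := h1
      rw [PerH39.P_eq h𝔪 h hα, norm_div, InvH39.norm_lam ta tb (hK α hα.1), div_one]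
      exact (hB 𝔪 h𝔪 ta tb ψ h).1 _
    · rw [PerH39.P_zero h1, norm_zero]
      exact zero_le_one
  · rintro σ a T ⟨τ, hτ, hT⟩
    by_cases h1 : ∃ (α : 𝓞 K) (I : Ideal (𝓞 K)), Per39.Rep 𝔪 (J : Ideal (𝓞 K)) b σ a α I
    · obtain ⟨α, I, hα⟩ := h1
      rw [PerH39.P_eq h𝔪 h hα, PerH39.P_eq h𝔪 h ((Per39.rep_shift hτ hT).mpr hα)]
    · rw [PerH39.P_zero h1, PerH39.P_zero]
      rintro ⟨α, I, hα⟩
      exact h1 ⟨α, I, (Per39.rep_shift hτ hT).mp hα⟩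
  · intro a α I hα ha hI
    have h1 : Per39.Rep 𝔪 (J : Ideal (𝓞 K)) b (sgn (pt b a)) a α I := by
      refine ⟨hα, hI, by rw [ha], 0, zero_mem _, ?_⟩
      rw [ha, sub_self]
      push_cast
      rw [map_zero]
    rw [PerH39.P_eq h𝔪 h h1, ← ha]
    exact div_mul_cancel₀ _ (InvH39.lam_ne_zero ta tb (hK α hα))

end Pool.Agent.Lib.MP_bf61d2_nt.Artin.Ray
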