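import Mathlib
import Pool.Agent.Lib.MP_bf61d2_nt.Trim.Artin.H.DefsH
import Pool.Agent.Lib.MP_bf61d2_nt.Trim.Artin.H.StmtsH
import Pool.Agent.Lib.MP_bf61d2_nt.Trim.Artin.R.DefsR
import Pool.Agent.Lib.MP_bf61d2_nt.Trim.Artin.R.RES84
import Pool.Agent.Lib.MP_bf61d2_nt.Trim.Artin.R.StmtsR
import Pool.Agent.Lib.MP_bf61d2_nt.Trim.Places
import Pool.Agent.Lib.MP_bf61d2_nt.Trim.Zeta.ClassSum
import Pool.Agent.Lib.MP_bf61d2_nt.Trim.Zeta.Cone
import Pool.Agent.Lib.MP_bf61d2_nt.Trim.Zeta.Dilation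
import Pool.Agent.Lib.MP_bf61d2_nt.Trim.Zeta.Lattice
import Pool.Agent.Lib.MP_bf61d2_nt.Trim.Zeta.Lip
import Pool.Agent.Lib.MP_bf61d2_nt.Trim.Zeta.Unfold

set_option autoImplicit false

/-!
HECKE (MP_bf61d2_nt), module RESH: a unitary Hecke character which is not trivial has no pole at `1`.
-/

namespace NumberField
end NumberField

namespace Pool.Agent.Lib.MP_bf61d2_nt.Zeta
end Pool.Agent.Lib.MP_bf61d2_nt.Zeta

namespace Pool.Agent.Lib.MP_bf61d2_nt.Artin.Ray.RES84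
end Pool.Agent.Lib.MP_bf61d2_nt.Artin.Ray.RES84

namespace Pool.Agent.Lib.MP_bf61d2_nt.Artin.Ray

open NumberField NumberField.mixedEmbedding NumberField.Units NumberField.InfinitePlace

open IsDedekindDomain Module

open Pool.Agent.Lib.MP_bf61d2_nt.Zeta

open scoped Classical nonZeroDivisors

universe u

variable {K : Type u} [Field K] [NumberField K]

namespace RESH84

open RES84

lemma norm_lamX_le (a : TA K) (b : TB K) (x : mixedSpace K) : ‖lamX a b x‖ ≤ 1 ∨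
    mixedEmbedding.norm x = 0 := by
  by_cases hx : mixedEmbedding.norm x = 0
  · exact Or.inr hx
  left
  have hne := mixedEmbedding.norm_ne_zero_iff.mp hx
  rw [lamX, norm_mul, Complex.norm_exp_ofReal_mul_I, mul_one, norm_prod]
  refine le_of_eq (Finset.prod_eq_one fun w _ => ?_)
  have h1 := hne w.1
  rw [normAtPlace_apply_of_isComplex w.2] at h1
  rw [norm_zpow, norm_div, Complex.norm_real, norm_norm, div_self h1, one_zpow]

lemma norm_hT_le (a : TA K) (b : TB K) (σ : SG K) (s : ℂ) (x : mixedSpace K) :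
    ‖hT a b σ s x‖ ≤ ‖hh s x‖ := by
  rw [hT, norm_mul]
  rcases norm_lamX_le a b x with h | h
  · calc ‖lamX a b x‖ * ‖hS σ s x‖ ≤ 1 * ‖hh s x‖ :=
          mul_le_mul h (norm_hS_le _ _ _) (norm_nonneg _) zero_le_one
      _ = _ := one_mul _
  · have h1 : hh s x = 0 := by rw [hh, if_pos h]
    have h2 : hS σ s x = 0 := by
      rw [hS, h1]
      split_ifs <;> rfl
    rw [h2, norm_zero, mul_zero]
    exact norm_nonneg _

section Sum

variable {ι : Type u} [Fintype ι]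

lemma summable_k {k : (ι → ℤ) → ℂ} (hk : Summable fun a => ‖k a‖) {g : (ι → ℤ) → ℂ}
    (hg : ∀ a, ‖g a‖ ≤ 1) : Summable fun a : ι → ℤ => g a * k a := by
  refine Summable.of_norm_bounded hk fun a => ?_
  rw [norm_mul]
  exact mul_le_of_le_one_left (norm_nonneg _) (hg a)

/-- The sum over a coset of a sublattice, by shifts. -/
lemma coset_gen (Λ : AddSubgroup (ι → ℤ))
    [Fintype ((ι → ℤ) ⧸ Λ)] (T : (ι → ℤ) ⧸ Λ → (ι → ℤ))
    (hT : ∀ c, (QuotientAddGroup.mk (T c) : (ι → ℤ) ⧸ Λ) = c) (P : (ι → ℤ) → ℂ)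
    (hP : ∀ a, ‖P a‖ ≤ 1) (hPT : ∀ a c, P (a + T c) = P a) {k : (ι → ℤ) → ℂ}
    (hk : Summable fun a => ‖k a‖) :
    ∑' a : ι → ℤ, P a * k a - (Fintype.card ((ι → ℤ) ⧸ Λ) : ℂ) *
      ∑' a : ι → ℤ, (if a ∈ Λ then P a else 0) * k a =
    ∑ c, ∑' a : ι → ℤ, (if a ∈ Λ then P a else 0) * (k (a + T c) - k a) := by
  set g : (ι → ℤ) → ℂ := fun a => P a * k a with hg
  have hsum : Summable g := summable_k hk hP
  set P' : (ι → ℤ) → ℂ := fun a => if a ∈ Λ then P a else 0 with hP'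
  have hP'1 : ∀ a, ‖P' a‖ ≤ 1 := by
    intro a
    rw [hP']
    simp only
    split_ifs
    · exact hP a
    · rw [norm_zero]; exact zero_le_one
  have hsum' := summable_k hk hP'1
  have h1 : ∀ c : (ι → ℤ) ⧸ Λ, Summable fun a => if (QuotientAddGroup.mk a : (ι → ℤ) ⧸ Λ) = c
      then g a else 0 := by
    intro c
    refine Summable.of_norm_bounded hsum.norm fun a => ?_
    split_ifs
    · exact le_rfl
    · rw [norm_zero]; exact norm_nonneg _
  have h2 : ∑' a, g a = ∑ c : (ι → ℤ) ⧸ Λ, ∑' a, if (QuotientAddGroup.mk a : (ι → ℤ) ⧸ Λ) = c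
      then g a else 0 := by
    rw [← Summable.tsum_finsetSum fun c _ => h1 c]
    refine tsum_congr fun a => ?_
    rw [Finset.sum_ite_eq]
    simp
  have h4 : ∀ (c : (ι → ℤ) ⧸ Λ) (a : ι → ℤ),
      (QuotientAddGroup.mk (a + T c) : (ι → ℤ) ⧸ Λ) = c ↔ a ∈ Λ := by
    intro c a
    rw [QuotientAddGroup.mk_add, hT, add_eq_right, QuotientAddGroup.eq_zero_iff]
  have h3 : ∀ c : (ι → ℤ) ⧸ Λ, (∑' a, if (QuotientAddGroup.mk a : (ι → ℤ) ⧸ Λ) = c
      then g a else 0) = ∑' a, P' a * k (a + T c) := by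
    intro c
    rw [← (Equiv.addRight (T c)).tsum_eq]
    refine tsum_congr fun a => ?_
    rw [Equiv.coe_addRight, hP']
    simp only [h4, hg]
    split_ifs with h
    · rw [hPT]
    · rw [zero_mul]
  have h5 : ∀ c : (ι → ℤ) ⧸ Λ, Summable fun a => P' a * k (a + T c) := by
    intro c
    have h6 := (Equiv.addRight (T c)).summable_iff.mpr (h1 c)
    refine h6.congr fun a => ?_
    rw [Function.comp_apply, Equiv.coe_addRight, hP']
    simp only [h4, hg]
    split_ifs with h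
    · rw [hPT]
    · rw [zero_mul]
  have h7 : ∀ c : (ι → ℤ) ⧸ Λ, ∑' a, P' a * (k (a + T c) - k a) =
      ∑' a, P' a * k (a + T c) - ∑' a, P' a * k a := by
    intro c
    rw [← (h5 c).tsum_sub hsum']
    exact tsum_congr fun a => by ring
  have h8 : ∑ c : (ι → ℤ) ⧸ Λ, ∑' a, P' a * (k (a + T c) - k a) =
      ∑ c : (ι → ℤ) ⧸ Λ, (∑' a, P' a * k (a + T c) -
        ∑' a, P' a * k a) := Finset.sum_congr rfl fun c _ => h7 c
  refine Eq.trans ?_ h8.symm
  rw [h2, Finset.sum_congr rfl fun c _ => h3 c, Finset.sum_sub_distrib, Finset.sum_const,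
    Finset.card_univ, nsmul_eq_mul]

variable (b : Basis ι ℝ (mixedSpace K))

lemma sum_sgn (a' : TA K) (b' : TB K) (P : SG K → ℂ) (s : ℂ) (x : mixedSpace K) :
    P (sgn x) * lamX a' b' x * hh s x = ∑ σ, P σ * hT a' b' σ s x := by
  simp only [hT, hS, mul_ite, mul_zero]
  rw [Finset.sum_ite_eq]
  simp only [Finset.mem_univ, if_true]
  ring

/-- Shifts: the sum over a sublattice is proportional to the full sum, up to a bounded error. -/
lemma sublattice (hSH : StSHIFTH K) (a' : TA K) (b' : TB K)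
    (hN : ∀ a : ι → ℤ, a ≠ 0 → 1 ≤ mixedEmbedding.norm (pt b a)) (Λ : AddSubgroup (ι → ℤ))
    [Fintype ((ι → ℤ) ⧸ Λ)] (T : (ι → ℤ) ⧸ Λ → (ι → ℤ))
    (hTT : ∀ c, (QuotientAddGroup.mk (T c) : (ι → ℤ) ⧸ Λ) = c) :
    ∃ B : ℝ, ∀ (P : SG K → (ι → ℤ) → ℂ), (∀ σ a, ‖P σ a‖ ≤ 1) →
      (∀ σ a c, P σ (a + T c) = P σ a) → ∀ x : ℝ, 0 < x → x ≤ 1 →
      ‖∑' a : ι → ℤ, P (sgn (pt b a)) a * lamX a' b' (pt b a) *
          hh ((1 + x : ℝ) : ℂ) (pt b a) -
        (Fintype.card ((ι → ℤ) ⧸ Λ) : ℂ) * ∑' a : ι → ℤ,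
          (if a ∈ Λ then P (sgn (pt b a)) a else 0) * lamX a' b' (pt b a) *
            hh ((1 + x : ℝ) : ℂ) (pt b a)‖ ≤ B := by
  choose B hB using fun c : (ι → ℤ) ⧸ Λ => hSH ι b hN (T c) a' b'
  refine ⟨∑ _σ : SG K, ∑ c, B c, fun P hP hPT x hx hx1 => ?_⟩
  have hs : 1 < (((1 + x : ℝ) : ℂ)).re := by
    rw [Complex.ofReal_re]; linarith
  set s : ℂ := ((1 + x : ℝ) : ℂ) with hsd
  have hk : ∀ σ : SG K, Summable fun a : ι → ℤ => ‖hT a' b' σ s (pt b a)‖ := by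
    intro σ
    refine Summable.of_nonneg_of_le (fun _ => norm_nonneg _) (fun a => norm_hT_le a' b' σ s _)
      (summable_hh b hN hs).norm
  have hP' : ∀ σ a, ‖(if a ∈ Λ then P σ a else 0)‖ ≤ 1 := by
    intro σ a
    split_ifs
    · exact hP σ a
    · rw [norm_zero]; exact zero_le_one
  have e1 : ∑' a : ι → ℤ, P (sgn (pt b a)) a * lamX a' b' (pt b a) * hh s (pt b a) =
      ∑ σ, ∑' a : ι → ℤ, P σ a * hT a' b' σ s (pt b a) := by
    rw [← Summable.tsum_finsetSum fun σ _ => summable_k (hk σ) (hP σ)]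
    exact tsum_congr fun a => sum_sgn a' b' (fun σ => P σ a) s (pt b a)
  have e2 : ∑' a : ι → ℤ, (if a ∈ Λ then P (sgn (pt b a)) a else 0) * lamX a' b' (pt b a) *
      hh s (pt b a) =
      ∑ σ, ∑' a : ι → ℤ, (if a ∈ Λ then P σ a else 0) * hT a' b' σ s (pt b a) := by
    rw [← Summable.tsum_finsetSum fun σ _ => summable_k (hk σ) (hP' σ)]
    exact tsum_congr fun a => sum_sgn a' b' (fun σ => if a ∈ Λ then P σ a else 0) s (pt b a)
  rw [e1, e2, Finset.mul_sum, ← Finset.sum_sub_distrib]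
  refine (norm_sum_le _ _).trans (Finset.sum_le_sum fun σ _ => ?_)
  rw [coset_gen Λ T hTT (P σ) (hP σ) (hPT σ) (hk σ)]
  refine (norm_sum_le _ _).trans (Finset.sum_le_sum fun c _ => ?_)
  exact hB c _ (hP' σ) σ x hx hx1

end Sum

end RESH84

open RES84

/-- RESH: the dichotomy. -/
theorem stRESH_of (hBAS : StBASH K) (hPER : StPERH K) (hUNF : StUNF K) (hSH : StSHIFTH K) :
    StRESH K := by
  rintro 𝔪 Z ψ ⟨h𝔪, a', b', hψ, -⟩
  by_cases hT : TR 𝔪 ψ
  · exact Or.inl hT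
  right
  unfold TR at hT
  push Not at hT
  obtain ⟨v, hv, hv1⟩ := hT
  obtain ⟨hle, -⟩ := hBAS 𝔪 h𝔪 a' b' ψ hψ
  set F : Ideal (𝓞 K) → ℂ := fun I => if I ≤ v.asIdeal then ψ I else 0 with hF
  have hF1 : ∀ I, ‖F I‖ ≤ 1 := by
    intro I
    rw [hF]
    simp only
    split_ifs
    · exact hle I
    · rw [norm_zero]; exact zero_le_one
  choose J hJ using fun C : ClassGroup (𝓞 K) => ClassGroup.mk0_surjective C⁻¹
  set bs := fun C => fractionalIdealLatticeBasis K (FractionalIdeal.mk0 K (J C)) with hbs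
  have hb : ∀ C, IsBasisOf (J C) (bs C) := fun C => isBasisOf_fractionalIdealLatticeBasis (J C)
  choose P hP1 hP2 hP3 using fun C => hPER 𝔪 h𝔪 a' b' ψ hψ (J C) _ (bs C) (hb C)
  choose Λ Fi T hcard hTm hTτ hΛ using fun C => exists_sub (hb C) hv
  choose B hB using fun C => @RESH84.sublattice K _ _ _ _ (bs C) hSH a' b'
    (fun a ha => one_le_norm_pt (hb C) ha) (Λ C) (Fi C) (T C) (hTm C)
  obtain ⟨c, hc0, hc⟩ := exists_low (one_lt_nm v) (hle v.asIdeal) hv1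
  set E : ClassGroup (𝓞 K) → ℝ := fun C =>
    Real.exp (2 * Real.log (Ideal.absNorm (J C : Ideal (𝓞 K)))) with hE
  refine ⟨(∑ C, E C * B C) / c, fun x hx hx1 => ?_⟩
  have hs : 1 < (((1 + x : ℝ) : ℂ)).re := by
    rw [Complex.ofReal_re]; linarith
  have hB' := fun C => hB C (P C) (hP1 C) (fun σ a c => hP2 C σ a (T C c) (hTτ C c)) x hx hx1
  set s : ℂ := ((1 + x : ℝ) : ℂ) with hsd
  have h1 := hUNF (ψ : Ideal (𝓞 K) → ℂ) hle J hJ _ bs hb
    (fun C a => P C (sgn (pt (bs C) a)) a * lamX a' b' (pt (bs C) a))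
    (fun C a α I hα ha hI => hP3 C a α I hα ha hI) s hs
  have h2 := hUNF F hF1 J hJ _ bs hb
    (fun C a => (if a ∈ Λ C then P C (sgn (pt (bs C) a)) a else 0) * lamX a' b' (pt (bs C) a))
    (fun C a α I hα ha hI => by
      have hJ0 : (J C : Ideal (𝓞 K)) ≠ ⊥ := nonZeroDivisors.coe_ne_zero (J C)
      have h3 : a ∈ Λ C ↔ I ≤ v.asIdeal := by
        rw [hΛ C a]
        constructor
        · rintro ⟨α', hα', ha'⟩
          have : α' = α := RingOfIntegers.coe_injective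
            (mixedEmbedding_injective K (ha'.trans ha.symm))
          subst this
          have h4 : v.asIdeal * (J C : Ideal (𝓞 K)) ∣ Ideal.span {α'} := by
            rw [Ideal.dvd_iff_le, Ideal.span_singleton_le_iff_mem]
            exact hα'
          rw [hI, mul_comm] at h4
          exact Ideal.dvd_iff_le.mp ((mul_dvd_mul_iff_left hJ0).mp h4)
        · intro h4
          refine ⟨α, ?_, ha⟩
          rw [← Ideal.span_singleton_le_iff_mem, hI, mul_comm]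
          exact Ideal.mul_mono_left h4
      simp only [h3, hF]
      split_ifs
      · exact hP3 C a α I hα ha hI
      · rw [zero_mul]) s hs
  rw [LI_dvd] at h2
  have h3 : LI (ψ : Ideal (𝓞 K) → ℂ) s * (1 - (nm v : ℂ) * (ψ v.asIdeal * (nm v : ℂ) ^ (-s))) =
      ∑ C, (torsionOrder K * en s (Ideal.absNorm (J C : Ideal (𝓞 K))))⁻¹ *
        (∑' a, P C (sgn (pt (bs C) a)) a * lamX a' b' (pt (bs C) a) * hh s (pt (bs C) a) -
          (nm v : ℂ) *
          ∑' a, (if a ∈ Λ C then P C (sgn (pt (bs C) a)) a else 0) * lamX a' b' (pt (bs C) a) *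
            hh s (pt (bs C) a)) := by
    have e : LI (ψ : Ideal (𝓞 K) → ℂ) s * (1 - (nm v : ℂ) * (ψ v.asIdeal * (nm v : ℂ) ^ (-s))) =
        LI (ψ : Ideal (𝓞 K) → ℂ) s - (nm v : ℂ) * (ψ v.asIdeal * (nm v : ℂ) ^ (-s) *
          LI (ψ : Ideal (𝓞 K) → ℂ) s) := by ring
    rw [e, h2, h1, Finset.mul_sum, ← Finset.sum_sub_distrib]
    exact Finset.sum_congr rfl fun C _ => by ring
  have h4 : ‖LI (ψ : Ideal (𝓞 K) → ℂ) s *
      (1 - (nm v : ℂ) * (ψ v.asIdeal * (nm v : ℂ) ^ (-s)))‖ ≤ ∑ C, E C * B C := by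
    rw [h3]
    refine (norm_sum_le _ _).trans (Finset.sum_le_sum fun C _ => ?_)
    rw [norm_mul]
    have h5 := hB' C
    rw [hcard C] at h5
    refine mul_le_mul ?_ h5 (norm_nonneg _) (Real.exp_pos _).le
    rw [norm_inv, norm_mul, en, Complex.norm_exp, Complex.neg_re, Complex.re_mul_ofReal,
      mul_inv, ← Real.exp_neg, neg_neg]
    have h6 : ‖(torsionOrder K : ℂ)‖⁻¹ ≤ 1 := by
      rw [Complex.norm_natCast]
      exact inv_le_one_of_one_le₀ (by
        exact_mod_cast Nat.one_le_iff_ne_zero.mpr (torsionOrder_ne_zero K))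
    have h7 : Real.exp (s.re * Real.log (Ideal.absNorm (J C : Ideal (𝓞 K)))) ≤ E C := by
      rw [hE]
      refine Real.exp_le_exp.mpr (mul_le_mul_of_nonneg_right ?_ (Real.log_natCast_nonneg _))
      rw [hsd, Complex.ofReal_re]
      linarith
    calc _ ≤ 1 * E C := mul_le_mul h6 h7 (Real.exp_pos _).le zero_le_one
      _ = _ := one_mul _
  rw [norm_mul] at h4
  have h5 := hc x hx hx1
  rw [le_div_iff₀ hc0]
  exact (mul_le_mul_of_nonneg_left h5 (norm_nonneg _)).trans h4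

end Pool.Agent.Lib.MP_bf61d2_nt.Artin.Ray
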